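import Pool.Agent.H93.EX.Hom3

namespace EX93

open Finset Polynomial Matrix

lemma exists_omega (τ : ℂ) : ∃ ω : ℂ, ω ≠ 0 ∧ ω * (τ + 2) = (1 + ω) ^ 2 ∧
    ω⁻¹ * (τ + 2) = (1 + ω⁻¹) ^ 2 ∧ ω + ω⁻¹ = τ := by
  obtain ⟨s, hs⟩ := IsAlgClosed.exists_pow_nat_eq (τ ^ 2 - 4) (n := 2) (by norm_num)
  set ω : ℂ := (τ + s) / 2 with hω
  have h1 : ω ^ 2 - τ * ω + 1 = 0 := by
    rw [hω]
    linear_combination (1 / 4 : ℂ) * hs
  have h0 : ω ≠ 0 := by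
    intro h
    rw [h] at h1
    norm_num at h1
  have h2 : ω + ω⁻¹ = τ := by
    field_simp
    linear_combination h1
  refine ⟨ω, h0, by linear_combination -h1, ?_, h2⟩
  field_simp
  linear_combination -h1

lemma det_factor {L : ℕ} (ω τ : ℂ) (h0 : ω ≠ 0) (h : ω + ω⁻¹ = τ)
    (P : Matrix (Fin L) (Fin L) ℂ) :
    (ω • (1 : Matrix (Fin L) (Fin L) ℂ) + P).det * (ω⁻¹ • (1 : Matrix (Fin L) (Fin L) ℂ) + P).det
      = (1 + τ • P + P ^ 2).det := by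
  rw [← Matrix.det_mul]
  congr 1
  rw [← h]
  simp only [Matrix.mul_add, Matrix.add_mul, Matrix.mul_smul, Matrix.smul_mul, Matrix.mul_one,
    Matrix.one_mul, smul_add, smul_smul, add_smul, inv_mul_cancel₀ h0, one_smul, sq]
  abel

/-- **Square of the value at `z = 1`** for an arbitrary parameter `τ`. -/
theorem eval_one_sq (q κ τ : ℂ) (hq : q ^ 2 + q + 1 = 0)
    (G : (n : ℕ) → MvPolynomial (Fin (2 * n)) ℂ)
    (h0 : ∀ z, MvPolynomial.eval z (G 0) = 1)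
    (hsym : ∀ n (σ : Equiv.Perm (Fin (2 * n))) (z : Fin (2 * n) → ℂ),
      MvPolynomial.eval (z ∘ σ) (G n) = MvPolynomial.eval z (G n))
    (hwheel : ∀ n (w : ℂ) (z : Fin (2 * n) → ℂ),
      MvPolynomial.eval (Fin.cons (q ^ 2 * w) (Fin.cons w z : Fin (2 * n + 1) → ℂ)
        : Fin (2 * n + 2) → ℂ) (G (n + 1))
      = 3 * κ * q ^ 2 * w ^ 2 * (∏ j, (z j - q * w) ^ 4) * MvPolynomial.eval z (G n))
    (htop : ∀ n (z : Fin (2 * n) → ℂ), ∃ p : ℂ[X][X],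
      p.natDegree ≤ 2 * (2 * n + 1) ∧ (p.coeff (2 * (2 * n + 1))).natDegree ≤ 2 * (2 * n) ∧
      (p.coeff (2 * (2 * n + 1))).coeff (2 * (2 * n)) = κ * (τ + 2) * MvPolynomial.eval z (G n) ∧
      ∀ x y : ℂ, (p.eval (C x)).eval y = MvPolynomial.eval
        (Fin.cons x (Fin.cons y z : Fin (2 * n + 1) → ℂ) : Fin (2 * n + 2) → ℂ) (G (n + 1))) (n : ℕ) :
    (MvPolynomial.eval (fun _ => 1) (G n)) ^ 2
      = κ ^ (2 * n) * 3 ^ (2 * (n * (2 * n - 1))) *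
        (1 + τ • pasc ℂ (2 * n) + pasc ℂ (2 * n) ^ 2).det := by
  obtain ⟨ω, hω, h1, h2, h3⟩ := exists_omega τ
  have e1 := eval_one q ω κ τ hq h1 G h0 hsym hwheel htop n
  have e2 := eval_one q ω⁻¹ κ τ hq h2 G h0 hsym hwheel htop n
  rw [← det_factor ω τ hω h3]
  have hn : ω ^ n * ω⁻¹ ^ n = 1 := by
    rw [← mul_pow, mul_inv_cancel₀ hω, one_pow]
  set E := MvPolynomial.eval (fun _ => (1 : ℂ)) (G n)
  have : E ^ 2 = (ω ^ n * E) * (ω⁻¹ ^ n * E) := by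
    linear_combination -(E ^ 2) * hn
  rw [this, e1, e2]
  ring

/-- the Pascal matrix over `ℂ` is the image of the real one -/
lemma pasc_map (L : ℕ) : pasc ℂ L = (pasc ℝ L).map (algebraMap ℝ ℂ) := by
  ext i j
  simp [pasc]

lemma det_pasc_real (L : ℕ) (τ : ℝ) :
    (1 + (τ : ℂ) • pasc ℂ L + pasc ℂ L ^ 2).det
      = (((1 + τ • pasc ℝ L + pasc ℝ L ^ 2).det : ℝ) : ℂ) := by
  have h := RingHom.map_det (algebraMap ℝ ℂ) (1 + τ • pasc ℝ L + pasc ℝ L ^ 2)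
  rw [Complex.coe_algebraMap] at h
  rw [h, pasc_map]
  congr 1
  rw [← Complex.coe_algebraMap, map_add, map_add, map_one, map_pow, RingHom.mapMatrix_apply]
  congr 2
  ext i j
  simp [Matrix.smul_apply]

lemma pasc_symm (L : ℕ) : (pasc ℝ L)ᵀ = pasc ℝ L := by
  ext i j
  simp only [pasc, Matrix.transpose_apply, Matrix.of_apply]
  have : Nat.choose ((j : ℕ) + i) j = Nat.choose ((i : ℕ) + j) i := by
    rw [Nat.choose_symm_add, Nat.add_comm]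
  rw [this]

/-- for `|τ| < 2` the determinant is positive -/
lemma det_pasc_pos (L : ℕ) (τ : ℝ) (hτ : τ ^ 2 < 4) :
    0 < (1 + τ • pasc ℝ L + pasc ℝ L ^ 2).det := by
  have hpd : (1 + τ • pasc ℝ L + pasc ℝ L ^ 2).PosDef := by
    have h1 : ((1 - τ ^ 2 / 4) • (1 : Matrix (Fin L) (Fin L) ℝ)).PosDef :=
      Matrix.PosDef.one.smul (by linarith)
    have h2 : ((pasc ℝ L + (τ / 2) • (1 : Matrix (Fin L) (Fin L) ℝ))ᴴ *
        (pasc ℝ L + (τ / 2) • (1 : Matrix (Fin L) (Fin L) ℝ))).PosSemidef :=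
      Matrix.posSemidef_conjTranspose_mul_self _
    have h3 := h1.add_posSemidef h2
    convert h3 using 1
    have h4 : (pasc ℝ L + (τ / 2) • (1 : Matrix (Fin L) (Fin L) ℝ))ᴴ
        = pasc ℝ L + (τ / 2) • (1 : Matrix (Fin L) (Fin L) ℝ) := by
      rw [Matrix.conjTranspose_eq_transpose_of_trivial, Matrix.transpose_add,
        Matrix.transpose_smul, Matrix.transpose_one, pasc_symm]
    rw [h4]
    simp only [Matrix.mul_add, Matrix.add_mul, Matrix.mul_smul, Matrix.smul_mul, Matrix.mul_one,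
      Matrix.one_mul, sq]
    module
  exact hpd.det_pos

/-- **Square of the value at `z = 1`**, real form. -/
theorem eval_one_sq_real (q κ : ℂ) (τ : ℝ) (hq : q ^ 2 + q + 1 = 0)
    (G : (n : ℕ) → MvPolynomial (Fin (2 * n)) ℂ)
    (h0 : ∀ z, MvPolynomial.eval z (G 0) = 1)
    (hsym : ∀ n (σ : Equiv.Perm (Fin (2 * n))) (z : Fin (2 * n) → ℂ),
      MvPolynomial.eval (z ∘ σ) (G n) = MvPolynomial.eval z (G n))
    (hwheel : ∀ n (w : ℂ) (z : Fin (2 * n) → ℂ),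
      MvPolynomial.eval (Fin.cons (q ^ 2 * w) (Fin.cons w z : Fin (2 * n + 1) → ℂ)
        : Fin (2 * n + 2) → ℂ) (G (n + 1))
      = 3 * κ * q ^ 2 * w ^ 2 * (∏ j, (z j - q * w) ^ 4) * MvPolynomial.eval z (G n))
    (htop : ∀ n (z : Fin (2 * n) → ℂ), ∃ p : ℂ[X][X],
      p.natDegree ≤ 2 * (2 * n + 1) ∧ (p.coeff (2 * (2 * n + 1))).natDegree ≤ 2 * (2 * n) ∧
      (p.coeff (2 * (2 * n + 1))).coeff (2 * (2 * n))
        = κ * ((τ : ℂ) + 2) * MvPolynomial.eval z (G n) ∧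
      ∀ x y : ℂ, (p.eval (C x)).eval y = MvPolynomial.eval
        (Fin.cons x (Fin.cons y z : Fin (2 * n + 1) → ℂ) : Fin (2 * n + 2) → ℂ) (G (n + 1))) (n : ℕ) :
    (MvPolynomial.eval (fun _ => 1) (G n)) ^ 2
      = κ ^ (2 * n) * 3 ^ (2 * (n * (2 * n - 1))) *
        (((1 + τ • pasc ℝ (2 * n) + pasc ℝ (2 * n) ^ 2).det : ℝ) : ℂ) := by
  rw [eval_one_sq q κ τ hq G h0 hsym hwheel htop n, det_pasc_real]

end EX93
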