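import Pool.Agent.H93.EX.Hom4
import Pool.Agent.H34.Hom.Vals

/-! EXACT: the determinant `det (1 - P + P ^ 2)` of the Pascal matrix is the square of the number of
alternating sign matrices (connection with the leg sums of helper96/helper34). -/

namespace EX93

open Finset Polynomial Matrix Filter Topology
open Pool.Agent.H34.Hom Pool.Agent.H96.EX

lemma pairs_pp {R : Type*} [CommMonoid R] (M : ℕ) (F : ℕ → ℕ → R) :
    ∏ i : Fin M, ∏ j ∈ Ioi i, F i j = Pool.Agent.H34.Hom.pp M F := by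
  have h1 : ∏ i : Fin M, ∏ j ∈ Ioi i, F i j = ∏ j : Fin M, ∏ i ∈ Iio j, F i j := by
    refine Finset.prod_comm' ?_
    intro i j
    simp
  rw [h1]
  unfold Pool.Agent.H34.Hom.pp
  rw [← Fin.prod_univ_eq_prod_range (fun k => ∏ j ∈ range k, F j k) M]
  refine Finset.prod_congr rfl fun j _ => ?_
  have h2 : (Iio j).map Fin.valEmbedding = range (j : ℕ) := by
    rw [Fin.map_valEmbedding_Iio, Nat.Iio_eq_range]
  rw [← h2, Finset.prod_map]
  rfl

lemma SG_eq_QQ {q : ℂ} (hq : q ^ 2 + q + 1 = 0) (M : ℕ) (z : ℕ → ℂ) (hz : Gen M z) :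
    V3 M z * SG q (q ^ 2) q (range M) [] z = (q ^ 2) ^ M * QQ q (q ^ 2) M (fun i : Fin M => z i) := by
  have q3 : q ^ 3 = 1 := by linear_combination (q - 1) * hq
  have h0 := eval_Npoly (κ := Empty) q (q ^ 2) q hq M [] (fun _ => 0) z hz
  rw [List.map_nil] at h0
  rw [← h0]
  unfold Npoly QQ
  rw [map_sum, Finset.mul_sum]
  refine Finset.sum_bij' (fun A _ => fun i : Fin M => decide ((i : ℕ) ∉ A))
    (fun s _ => (range M).filter (fun n => ∃ h : n < M, s ⟨n, h⟩ = false)) ?_ ?_ ?_ ?_ ?_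
  · intro A _; exact Finset.mem_univ _
  · intro s _
    rw [Finset.mem_powerset]
    exact Finset.filter_subset _ _
  · intro A hA
    rw [Finset.mem_powerset] at hA
    ext n
    simp only [Finset.mem_filter, Finset.mem_range, decide_eq_false_iff_not, not_not]
    constructor
    · rintro ⟨_, _, h⟩; exact h
    · intro h; exact ⟨Finset.mem_range.mp (hA h), Finset.mem_range.mp (hA h), h⟩
  · intro s _
    funext i
    simp only [Finset.mem_filter, Finset.mem_range, i.2, exists_true_left, true_and]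
    cases s i <;> simp
  · intro A hA
    rw [Finset.mem_powerset] at hA
    rw [map_mul, map_mul, map_prod, map_prod, eval_pp, ← mul_assoc]
    congr 1
    · simp only [List.map_nil, List.prod_nil, mul_one, MvPolynomial.eval_C]
      unfold wt
      have e0 : (q ^ 2) ^ M = ∏ _i : Fin M, q ^ 2 := by simp
      rw [e0, ← Finset.prod_mul_distrib]
      have e1 : ∏ i : Fin M, q ^ 2 * (if decide ((i : ℕ) ∉ A) = true then q ^ 2 else 1)
          = ∏ n ∈ range M, (if n ∈ A then q ^ 2 else q) := by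
        rw [← Fin.prod_univ_eq_prod_range (fun n => if n ∈ A then q ^ 2 else q) M]
        refine Finset.prod_congr rfl fun i _ => ?_
        by_cases h : (i : ℕ) ∈ A
        · simp [h]
        · simp [h]
          linear_combination q * q3
      rw [e1, ← Finset.prod_sdiff hA, mul_comm]
      congr 1
      · refine Finset.prod_congr rfl fun n hn => ?_
        rw [if_neg (Finset.mem_sdiff.mp hn).2]
      · refine Finset.prod_congr rfl fun n hn => ?_
        rw [if_pos hn]
    · unfold EX93.pp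
      rw [← pairs_pp]
      refine Finset.prod_congr rfl fun i _ => Finset.prod_congr rfl fun j _ => ?_
      unfold Pool.Agent.H34.Hom.hA
      by_cases hi : (i : ℕ) ∈ A <;> by_cases hj : (j : ℕ) ∈ A <;>
        simp [hi, hj, hh]

/-- the path -/
noncomputable def zp (q : ℂ) (t : ℝ) (j : ℕ) : ℂ :=
  (q ^ 2 * ((t : ℂ) * j) + q) / ((t : ℂ) * j + q)

lemma HV_eq_det {q : ℂ} (hq : q ^ 2 + q + 1 = 0) (M : ℕ) :
    HV q (q ^ 2) q M [] = (q ^ 2) ^ M * 3 ^ (M * (M - 1) / 2) *
      (q ^ 2 • (1 : Matrix (Fin M) (Fin M) ℂ) + pasc ℂ M).det := by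
  have q3 : q ^ 3 = 1 := by linear_combination (q - 1) * hq
  have hq0 : q ≠ 0 := by
    rintro rfl
    norm_num at q3
  have hq1 : (1 - q : ℂ) ≠ 0 := by
    intro h
    have : q = 1 := by linear_combination -h
    rw [this] at hq
    norm_num at hq
  set x : ℝ → ℕ → ℂ := fun t j => (t : ℂ) * j with hx
  have hxc : ∀ j, Continuous fun t => x t j := fun j => by
    simp only [hx]; fun_prop
  have hx0 : ∀ j, x 0 j = 0 := fun j => by simp [hx]
  have hz : ∀ j, Tendsto (fun t => zp q t j) (𝓝[>] 0) (𝓝 1) := by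
    intro j
    have h1 : ContinuousAt (fun t => zp q t j) 0 := by
      unfold zp
      apply ContinuousAt.div
      · exact ((continuous_const.mul (hxc j)).add continuous_const).continuousAt
      · exact ((hxc j).add continuous_const).continuousAt
      · simp [hq0]
    have h2 := h1.tendsto.mono_left (nhdsWithin_le_nhds (s := Set.Ioi 0))
    have h3 : zp q 0 j = 1 := by simp [zp, hq0]
    rwa [h3] at h2
  have hne : ∀ j, ∀ᶠ t in 𝓝[>] (0 : ℝ), x t j + q ≠ 0 := by
    intro j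
    have : ContinuousAt (fun t => x t j + q) 0 := ((hxc j).add continuous_const).continuousAt
    have h1 : ∀ᶠ t in 𝓝 (0 : ℝ), x t j + q ≠ 0 := by
      apply this.eventually_ne
      rw [hx0, zero_add]; exact hq0
    exact h1.filter_mono nhdsWithin_le_nhds
  have hgn : ∀ j k, ∀ᶠ t in 𝓝[>] (0 : ℝ), EX93.gg (x t j) (x t k) ≠ 0 := by
    intro j k
    have : ContinuousAt (fun t => EX93.gg (x t j) (x t k)) 0 := by
      unfold EX93.gg
      exact ((continuous_const.sub (hxc k)).add ((hxc j).mul (hxc k))).continuousAt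
    have h1 : ∀ᶠ t in 𝓝 (0 : ℝ), EX93.gg (x t j) (x t k) ≠ 0 := by
      apply this.eventually_ne
      rw [hx0, hx0]; simp [EX93.gg]
    exact h1.filter_mono nhdsWithin_le_nhds
  have hneM : ∀ᶠ t in 𝓝[>] (0 : ℝ), ∀ j ∈ range M, x t j + q ≠ 0 :=
    (Filter.eventually_all_finset (range M)).mpr fun j _ => hne j
  have hgnM : ∀ᶠ t in 𝓝[>] (0 : ℝ), ∀ j ∈ range M, ∀ k ∈ range M, EX93.gg (x t j) (x t k) ≠ 0 :=
    (Filter.eventually_all_finset (range M)).mpr fun j _ =>
      (Filter.eventually_all_finset (range M)).mpr fun k _ => hgn j k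
  have hgen : ∀ᶠ t in 𝓝[>] (0 : ℝ), Gen M (zp q t) := by
    filter_upwards [hneM, hgnM, self_mem_nhdsWithin] with t h1 h2 h3
    intro j hj k hk hjk h4
    have h5 := hh_eq_rr q hq (x t k) (x t j) (h1 k (mem_range.mpr hk)) (h1 j (mem_range.mpr hj))
      true true
    have h6 : hh q true true ((q ^ 2 * x t k + q) / (x t k + q)) ((q ^ 2 * x t j + q) / (x t j + q))
        = 0 := by
      simp only [hh]
      rw [sub_eq_zero]
      exact h4
    rw [h6, zero_mul] at h5
    have h7 : ((1 - q) * (3 * q)) * EX93.rr (x t k) (x t j) true true ≠ 0 := by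
      simp only [EX93.rr]
      refine mul_ne_zero (mul_ne_zero hq1 (mul_ne_zero (by norm_num) hq0))
        (mul_ne_zero (mul_ne_zero ?_ (h2 k (mem_range.mpr hk) j (mem_range.mpr hj)))
          (h2 j (mem_range.mpr hj) k (mem_range.mpr hk)))
      simp only [hx]
      have ht : (t : ℂ) ≠ 0 := by exact_mod_cast (ne_of_gt h3)
      rw [← mul_sub]
      refine mul_ne_zero ht (sub_ne_zero.mpr ?_)
      exact_mod_cast hjk
    exact h7 h5.symm
  have hlim := tendsto_HV' (κ := Empty) (q ^ 2) q hq M [] (F := 𝓝[>] (0 : ℝ)) (fun _ _ => 0)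
    (fun _ => 0) (fun a => a.elim) (zp q) hz hgen
  simp only [List.map_nil] at hlim
  -- the identity for small `t`
  have hid : ∀ᶠ t in 𝓝[>] (0 : ℝ),
      SS q (q ^ 2) q M [] (zp q t) * V2 q (fun i : Fin M => x t i) ^ 2 *
        ∏ i : Fin M, EX93.gg (x t i) (x t i) =
      (q ^ 2) ^ M * (∏ i : Fin M, ∏ _j ∈ Ioi i, (3 * q)) * (NN (q ^ 2) (fun i : Fin M => x t i)).det := by
    filter_upwards [hneM, hgen, self_mem_nhdsWithin] with t h1 h2 h3
    have ht : (t : ℂ) ≠ 0 := by exact_mod_cast (ne_of_gt h3)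
    set xx : Fin M → ℂ := fun i => x t i with hxx
    have hxx1 : ∀ i, xx i + q ≠ 0 := fun i => h1 i (mem_range.mpr i.2)
    have hinj : Function.Injective xx := by
      intro i j hij
      simp only [hxx, hx] at hij
      have := mul_left_cancel₀ ht hij
      exact Fin.ext (by exact_mod_cast this)
    have e1 := QQ_zz q hq (q ^ 2) xx hxx1
    have e2 := VV_zz q hq xx hxx1
    rw [det_WW_eq] at e1
    have e3 := SG_eq_QQ hq M (zp q t) h2
    have e4 : zz q xx = fun i : Fin M => zp q t i := by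
      funext i; rfl
    rw [e4] at e1 e2
    have e5 : VV M (fun i : Fin M => zp q t i) = VM M (zp q t) := by
      unfold VV VM
      exact pairs_pp M (fun j k => zp q t k - zp q t j)
    rw [V3_eq, ← e5] at e3
    have e6 : (∏ i : Fin M, ∏ _j ∈ Ioi i, ((1 - q) * (3 * q)))
        = (∏ i : Fin M, ∏ _j ∈ Ioi i, (1 - q)) * ∏ i : Fin M, ∏ _j ∈ Ioi i, (3 * q) := by
      simp only [Finset.prod_mul_distrib]
    rw [e6] at e1
    have hV := VV_ne_zero xx hinj
    have hC : (∏ i : Fin M, ∏ _j ∈ Ioi i, (1 - q)) ≠ 0 :=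
      Finset.prod_ne_zero_iff.mpr fun i _ => Finset.prod_ne_zero_iff.mpr fun j _ => hq1
    apply mul_left_cancel₀ (mul_ne_zero hC hV)
    unfold SS
    set Vz := VV M (fun i : Fin M => zp q t i)
    set PP := PM M (zp q t)
    set S := SG q (q ^ 2) q (range M) [] (zp q t)
    set B := ∏ i : Fin M, ∏ _j ∈ Ioi i, (3 * q)
    linear_combination (-(PP * S) * V2 q xx ^ 2 * (∏ i, EX93.gg (xx i) (xx i))) * e2
      + (V2 q xx ^ 3 * (∏ i, EX93.gg (xx i) (xx i))) * e3 + (q ^ 2) ^ M * e1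
  -- limits of both sides
  have cV : Tendsto (fun t : ℝ => V2 q (fun i : Fin M => x t i)) (𝓝[>] 0)
      (𝓝 (V2 q (fun i : Fin M => x 0 i))) := by
    have : Continuous (fun t : ℝ => V2 q (fun i : Fin M => x t i)) := by
      unfold V2
      refine continuous_finsetProd _ fun i _ => continuous_finsetProd _ fun j _ => ?_
      exact ((hxc i).add continuous_const).mul ((hxc j).add continuous_const)
    exact (this.tendsto 0).mono_left nhdsWithin_le_nhds
  have cG : Tendsto (fun t : ℝ => ∏ i : Fin M, EX93.gg (x t i) (x t i)) (𝓝[>] 0)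
      (𝓝 (∏ i : Fin M, EX93.gg (x 0 i) (x 0 i))) := by
    have : Continuous (fun t : ℝ => ∏ i : Fin M, EX93.gg (x t i) (x t i)) := by
      refine continuous_finsetProd _ fun i _ => ?_
      unfold EX93.gg
      exact (continuous_const.sub (hxc i)).add ((hxc i).mul (hxc i))
    exact (this.tendsto 0).mono_left nhdsWithin_le_nhds
  have cN : Tendsto (fun t : ℝ => (NN (q ^ 2) (fun i : Fin M => x t i)).det) (𝓝[>] 0)
      (𝓝 (NN (q ^ 2) (fun i : Fin M => x 0 i)).det) := by
    have h1 := cont_det_NN (q ^ 2) (L := M)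
    have h2 : Continuous (fun t : ℝ => (NN (q ^ 2) (fun i : Fin M => x t i)).det) :=
      h1.comp Complex.continuous_ofReal
    exact (h2.tendsto 0).mono_left nhdsWithin_le_nhds
  have l1 := (hlim.mul (cV.pow 2)).mul cG
  have l2 := cN.const_mul ((q ^ 2) ^ M * (∏ i : Fin M, ∏ _j ∈ Ioi i, (3 * q)))
  have hfin := tendsto_nhds_unique l1 (l2.congr' (hid.mono fun t ht => ht.symm))
  have hxz : (fun i : Fin M => x 0 (i : ℕ)) = fun _ => 0 := funext fun i => hx0 i
  have hgg : (∏ i : Fin M, EX93.gg (x 0 i) (x 0 i)) = 1 := by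
    refine Finset.prod_eq_one fun i _ => ?_
    rw [hx0]; simp [EX93.gg]
  have hV2 : V2 q (fun _ : Fin M => (0 : ℂ)) = (q ^ 2) ^ (M * (M - 1) / 2) := by
    unfold V2
    simp only [zero_add]
    rw [pairs_const, ← sq]
  rw [hxz, hgg, hV2, NN_zero, pairs_const, mul_one, mul_pow] at hfin
  set N := M * (M - 1) / 2
  have hqN : q ^ N ≠ 0 := pow_ne_zero _ hq0
  have h5 : ((q ^ 2) ^ N) ^ 2 = q ^ N := by
    have : ((q ^ 2) ^ N) ^ 2 = (q ^ 3) ^ N * q ^ N := by
      rw [← pow_mul, ← pow_mul, ← pow_mul, ← pow_add]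
      congr 1
      ring
    rw [this, q3, one_pow, one_mul]
  rw [h5] at hfin
  apply mul_left_cancel₀ hqN
  linear_combination hfin

lemma det_omega_asm {q : ℂ} (hq : q ^ 2 + q + 1 = 0) (M : ℕ) :
    (q ^ 2 • (1 : Matrix (Fin M) (Fin M) ℂ) + pasc ℂ M).det = (-q) ^ M * ((asm M : ℝ) : ℂ) := by
  have q3 : q ^ 3 = 1 := by linear_combination (q - 1) * hq
  have h1 := HV_eq_det hq M
  rw [zero_leg_value hq M] at h1
  have h3 : (3 : ℂ) ^ (M * (M - 1) / 2) ≠ 0 := pow_ne_zero _ (by norm_num)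
  have h4 : (-1 : ℂ) ^ M * ((asm M : ℝ) : ℂ) =
      (q ^ 2) ^ M * (q ^ 2 • (1 : Matrix (Fin M) (Fin M) ℂ) + pasc ℂ M).det := by
    apply mul_left_cancel₀ h3
    linear_combination h1
  have h5 : q ^ M * (q ^ 2) ^ M = 1 := by
    rw [← mul_pow, ← pow_succ', q3, one_pow]
  rw [neg_pow]
  calc (q ^ 2 • (1 : Matrix (Fin M) (Fin M) ℂ) + pasc ℂ M).det
      = q ^ M * ((q ^ 2) ^ M * (q ^ 2 • (1 : Matrix (Fin M) (Fin M) ℂ) + pasc ℂ M).det) := by
        rw [← mul_assoc, h5, one_mul]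
    _ = _ := by rw [← h4]; ring

/-- **`det (1 - P + P ^ 2) = A(M) ^ 2`** for the symmetric Pascal matrix `P` of size `M`. -/
theorem det_pasc_neg_one (M : ℕ) :
    (1 - pasc ℝ M + pasc ℝ M ^ 2).det = asm M ^ 2 := by
  obtain ⟨q, hq⟩ : ∃ q : ℂ, q ^ 2 + q + 1 = 0 := by
    obtain ⟨ω, h0, h1, -, -⟩ := exists_omega (-1)
    exact ⟨ω, by linear_combination -h1⟩
  have q3 : q ^ 3 = 1 := by linear_combination (q - 1) * hq
  have hq' : (q ^ 2) ^ 2 + q ^ 2 + 1 = 0 := by linear_combination hq + q * q3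
  have h1 := det_omega_asm hq M
  have h2 := det_omega_asm hq' M
  have hq4 : (q ^ 2) ^ 2 = q := by linear_combination q * q3
  rw [hq4] at h2
  have hq0 : q ≠ 0 := by
    rintro rfl
    norm_num at q3
  have hinv : q⁻¹ = q ^ 2 := by
    field_simp
    exact q3.symm
  have h3 := det_factor q (-1) hq0 (by rw [hinv]; linear_combination hq) (pasc ℂ M)
  rw [hinv, h1, h2] at h3
  have h4 := det_pasc_real M (-1)
  have h5 : (1 + ((-1 : ℝ) : ℂ) • pasc ℂ M + pasc ℂ M ^ 2).det = ((asm M ^ 2 : ℝ) : ℂ) := by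
    have e0 : (((-1 : ℝ) : ℝ) : ℂ) = -1 := by push_cast; ring
    rw [e0, ← h3, neg_pow, neg_pow q]
    have e1 : q ^ M * (q ^ 2) ^ M = 1 := by
      rw [← mul_pow, ← pow_succ', q3, one_pow]
    have e2 : (-1 : ℂ) ^ M * (-1) ^ M = 1 := by
      rw [← mul_pow]; norm_num
    push_cast
    linear_combination (((asm M : ℝ) : ℂ) ^ 2 * ((-1) ^ M * (-1) ^ M)) * e1 + ((asm M : ℝ) : ℂ) ^ 2 * e2
  rw [h5] at h4
  have h6 : (1 + (-1 : ℝ) • pasc ℝ M + pasc ℝ M ^ 2) = 1 - pasc ℝ M + pasc ℝ M ^ 2 := by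
    rw [neg_one_smul, ← sub_eq_add_neg]
  rw [h6] at h4
  exact_mod_cast h4.symm

end EX93
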