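import Mathlib

/-! EXACT project, one-arm formula, pure algebra part (helper93). -/

namespace EX93

open Finset Polynomial

variable {R : Type*} [CommRing R]

/-- local pair factor -/
def hh (q : R) : Bool → Bool → R → R → R
  | true, true, x, y => y ^ 3 - x ^ 3
  | false, false, x, y => y ^ 3 - x ^ 3
  | true, false, x, y => -(x - q * y) ^ 3
  | false, true, x, y => (y - q * x) ^ 3

lemma hh_anti (q : R) (a b : Bool) (x y : R) : hh q a b x y = - hh q b a y x := by
  cases a <;> cases b <;> simp [hh]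

/-- weight of a colouring -/
def wt (ω : R) {m : ℕ} (s : Fin m → Bool) : R := ∏ i, if s i then ω else 1

/-- the product over pairs -/
def pp (q : R) {m : ℕ} (s : Fin m → Bool) (z : Fin m → R) : R :=
  ∏ i, ∏ j ∈ Ioi i, hh q (s i) (s j) (z i) (z j)

/-- numerator of the symmetric function -/
def QQ (q ω : R) (m : ℕ) (z : Fin m → R) : R :=
  ∑ s : Fin m → Bool, wt ω s * pp q s z

/-- Vandermonde product -/
def VV (m : ℕ) (z : Fin m → R) : R := ∏ i, ∏ j ∈ Ioi i, (z j - z i)

lemma wt_perm (ω : R) {m : ℕ} (s : Fin m → Bool) (σ : Equiv.Perm (Fin m)) :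
    wt ω (s ∘ σ) = wt ω s := by
  unfold wt
  exact Equiv.prod_comp σ (fun i => if s i then ω else 1)

lemma pp_perm (q : R) {m : ℕ} (s : Fin m → Bool) (z : Fin m → R) (σ : Equiv.Perm (Fin m)) :
    pp q (s ∘ σ) (z ∘ σ) = (Equiv.Perm.sign σ : ℤ) * pp q s z := by
  unfold pp
  have := σ.prod_Ioi_comp_eq_sign_mul_prod (R := R)
    (f := fun i j => hh q (s i) (s j) (z i) (z j)) (fun i j => hh_anti q _ _ _ _)
  simpa using this

lemma QQ_perm (q ω : R) {m : ℕ} (z : Fin m → R) (σ : Equiv.Perm (Fin m)) :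
    QQ q ω m (z ∘ σ) = (Equiv.Perm.sign σ : ℤ) * QQ q ω m z := by
  unfold QQ
  rw [Finset.mul_sum]
  have e : (Fin m → Bool) ≃ (Fin m → Bool) := Equiv.arrowCongr σ.symm (Equiv.refl _)
  refine Fintype.sum_equiv (Equiv.arrowCongr σ (Equiv.refl Bool)) _ _ (fun s => ?_)
  have h1 : wt ω ((Equiv.arrowCongr σ (Equiv.refl Bool)) s) = wt ω s := by
    have := wt_perm ω ((Equiv.arrowCongr σ (Equiv.refl Bool)) s) σ
    rw [← this]
    congr 1
    funext i
    simp [Equiv.arrowCongr]
  have h2 : pp q s (z ∘ σ) = (Equiv.Perm.sign σ : ℤ) *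
      pp q ((Equiv.arrowCongr σ (Equiv.refl Bool)) s) z := by
    rw [← pp_perm]
    congr 1
    funext i
    simp [Equiv.arrowCongr]
  rw [h1, h2]
  ring

lemma VV_perm {m : ℕ} (z : Fin m → R) (σ : Equiv.Perm (Fin m)) :
    VV m (z ∘ σ) = (Equiv.Perm.sign σ : ℤ) * VV m z := by
  unfold VV
  have := σ.prod_Ioi_comp_eq_sign_mul_prod (R := R)
    (f := fun i j => z j - z i) (fun i j => by ring)
  simpa using this

lemma QQ_map {S : Type*} [CommRing S] (f : R →+* S) (q ω : R) (m : ℕ) (z : Fin m → R) :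
    f (QQ q ω m z) = QQ (f q) (f ω) m (fun i => f (z i)) := by
  unfold QQ wt pp
  rw [map_sum]
  refine Finset.sum_congr rfl fun s _ => ?_
  rw [map_mul, map_prod, map_prod]
  congr 1
  · refine Finset.prod_congr rfl fun i _ => ?_
    split_ifs <;> simp
  · refine Finset.prod_congr rfl fun i _ => ?_
    rw [map_prod]
    refine Finset.prod_congr rfl fun j _ => ?_
    cases s i <;> cases s j <;> simp [hh]

lemma VV_map {S : Type*} [CommRing S] (f : R →+* S) (m : ℕ) (z : Fin m → R) :
    f (VV m z) = VV m (fun i => f (z i)) := by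
  unfold VV
  rw [map_prod]
  refine Finset.prod_congr rfl fun i _ => ?_
  rw [map_prod]
  refine Finset.prod_congr rfl fun j _ => ?_
  simp

lemma pp_cons (q : R) {m : ℕ} (b : Bool) (s : Fin m → Bool) (x : R) (z : Fin m → R) :
    pp q (Fin.cons b s : Fin (m + 1) → Bool) (Fin.cons x z : Fin (m + 1) → R)
      = (∏ j, hh q b (s j) x (z j)) * pp q s z := by
  unfold pp
  rw [Fin.prod_univ_succ, Fin.prod_Ioi_zero]
  simp [Fin.prod_Ioi_succ]

lemma VV_cons {m : ℕ} (x : R) (z : Fin m → R) :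
    VV (m + 1) (Fin.cons x z : Fin (m + 1) → R) = (∏ j, (z j - x)) * VV m z := by
  unfold VV
  rw [Fin.prod_univ_succ, Fin.prod_Ioi_zero]
  simp [Fin.prod_Ioi_succ]

lemma wt_cons (ω : R) {m : ℕ} (b : Bool) (s : Fin m → Bool) :
    wt ω (Fin.cons b s : Fin (m + 1) → Bool) = (if b then ω else 1) * wt ω s := by
  unfold wt
  rw [Fin.prod_univ_succ]
  simp

lemma sum_cons {m : ℕ} (f : (Fin (m + 1) → Bool) → R) :
    ∑ s : Fin (m + 1) → Bool, f s = ∑ s : Fin m → Bool,
      (f (Fin.cons true s) + f (Fin.cons false s)) := by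
  have : ∑ s : Fin (m + 1) → Bool, f s
      = ∑ p : Bool × (Fin m → Bool), f (Fin.cons p.1 p.2) := by
    refine (Fintype.sum_equiv (Fin.consEquiv (fun _ => Bool)) _ _ (fun p => ?_)).symm
    rfl
  rw [this, Fintype.sum_prod_type]
  simp only [Fintype.sum_bool]
  rw [← Finset.sum_add_distrib]

lemma QQ_cons (q ω : R) {m : ℕ} (x : R) (z : Fin m → R) :
    QQ q ω (m + 1) (Fin.cons x z : Fin (m + 1) → R) = ∑ s : Fin m → Bool,
      wt ω s * (ω * (∏ j, hh q true (s j) x (z j)) + ∏ j, hh q false (s j) x (z j)) * pp q s z := by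
  unfold QQ
  rw [sum_cons]
  refine Finset.sum_congr rfl fun s _ => ?_
  rw [wt_cons, wt_cons, pp_cons, pp_cons]
  simp
  ring

/-- the wheel recursion for the numerator -/
lemma QQ_wheel (q ω : R) (hq : q ^ 2 + q + 1 = 0) {m : ℕ} (w : R) (z : Fin m → R) :
    QQ q ω (m + 2) (Fin.cons (q ^ 2 * w) (Fin.cons w z : Fin (m + 1) → R) : Fin (m + 2) → R)
      = -(q ^ 2 - q) ^ 3 * w ^ 3 * ω *
        (∏ j, ((z j - w) * (z j - q ^ 2 * w) * (z j - q * w) ^ 4)) * QQ q ω m z := by
  have q3 : q ^ 3 = 1 := by linear_combination (q - 1) * hq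
  unfold QQ
  rw [sum_cons, sum_cons, Finset.mul_sum]
  refine Finset.sum_congr rfl fun s _ => ?_
  simp only [wt_cons, pp_cons]
  rw [Fin.prod_univ_succ, Fin.prod_univ_succ, Fin.prod_univ_succ, Fin.prod_univ_succ]
  simp only [Fin.cons_zero, Fin.cons_succ]
  have h1 : hh q true true (q ^ 2 * w) w = 0 := by
    simp only [hh]; linear_combination (-(q^3+1) * w^3) * q3
  have h2 : hh q false false (q ^ 2 * w) w = 0 := by
    simp only [hh]; linear_combination (-(q^3+1) * w^3) * q3
  have h3 : hh q false true (q ^ 2 * w) w = 0 := by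
    simp only [hh]
    have : w - q * (q ^ 2 * w) = 0 := by linear_combination (-w) * q3
    rw [this]; ring
  have h4 : hh q true false (q ^ 2 * w) w = -(q ^ 2 - q) ^ 3 * w ^ 3 := by
    simp only [hh]; ring
  rw [h1, h2, h3, h4]
  have key : (∏ j, hh q true (s j) (q ^ 2 * w) (z j)) * (∏ j, hh q false (s j) w (z j))
      = ∏ j, ((z j - w) * (z j - q ^ 2 * w) * (z j - q * w) ^ 4) := by
    rw [← Finset.prod_mul_distrib]
    refine Finset.prod_congr rfl fun j _ => ?_
    have e1 : (z j) ^ 3 - w ^ 3 = (z j - w) * (z j - q ^ 2 * w) * (z j - q * w) := by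
      linear_combination ((z j - w) * z j * w) * hq - ((z j - w) * w ^ 2) * q3
    cases s j
    · have a1 : hh q true false (q ^ 2 * w) (z j) = (z j - q * w) ^ 3 := by
        simp only [hh]
        linear_combination (z j - q * w) ^ 3 * q3
      have a2 : hh q false false w (z j) = (z j - w) * (z j - q ^ 2 * w) * (z j - q * w) := by
        simp only [hh]; rw [e1]
      rw [a1, a2]; ring
    · have a1 : hh q true true (q ^ 2 * w) (z j) =
          (z j - w) * (z j - q ^ 2 * w) * (z j - q * w) := by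
        simp only [hh]; rw [← e1]
        linear_combination (-(q ^ 3 + 1) * w ^ 3) * q3
      have a2 : hh q false true w (z j) = (z j - q * w) ^ 3 := by
        simp only [hh]
      rw [a1, a2]; ring
  rw [← key]
  simp only [Bool.false_eq_true, if_true, if_false]
  ring

/-- the wheel factor of the Vandermonde product -/
lemma VV_wheel (q : R) {m : ℕ} (w : R) (z : Fin m → R) :
    VV (m + 2) (Fin.cons (q ^ 2 * w) (Fin.cons w z : Fin (m + 1) → R) : Fin (m + 2) → R)
      = (1 - q ^ 2) * w * (∏ j, ((z j - w) * (z j - q ^ 2 * w))) * VV m z := by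
  rw [VV_cons, VV_cons, Fin.prod_univ_succ]
  simp only [Fin.cons_zero, Fin.cons_succ, Finset.prod_mul_distrib]
  ring

end EX93
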