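import Pool.Agent.H93.EX.Basic

namespace EX93

open Finset Polynomial

variable {R : Type*} [CommRing R]

lemma natDegree_hh_le (q z : R) (a b : Bool) :
    (hh (C q) a b X (C z : R[X])).natDegree ≤ 3 := by
  cases a <;> cases b <;> simp only [hh] <;> compute_degree

lemma coeff3_aux (a b c d : R) :
    (C a - C b * X + C c * X ^ 2 - C d * X ^ 3 : R[X]).coeff 3 = -d := by
  simp only [coeff_sub, coeff_add, coeff_C_mul, coeff_X, coeff_X_pow, coeff_C]
  norm_num

lemma coeff_hh (q : R) (hq : q ^ 3 = 1) (z : R) (a b : Bool) :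
    (hh (C q) a b X (C z : R[X])).coeff 3 = -1 := by
  have h3 : (C (3 : R) : R[X]) = 3 := by exact map_ofNat C 3
  have e0 : (C z : R[X]) ^ 3 - X ^ 3 = C (z ^ 3) - C 0 * X + C 0 * X ^ 2 - C 1 * X ^ 3 := by
    simp
  cases a <;> cases b <;> simp only [hh]
  · rw [e0, coeff3_aux]
  · have : ((C z : R[X]) - C q * X) ^ 3
        = C (z ^ 3) - C (3 * z ^ 2 * q) * X + C (3 * z * q ^ 2) * X ^ 2 - C (q ^ 3) * X ^ 3 := by
      simp only [map_pow, map_mul]
      rw [h3]; ring
    rw [this, hq, coeff3_aux]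
  · have : -((X : R[X]) - C q * C z) ^ 3
        = C (q ^ 3 * z ^ 3) - C (3 * z ^ 2 * q ^ 2) * X + C (3 * z * q) * X ^ 2 - C 1 * X ^ 3 := by
      simp only [map_pow, map_mul, map_one]
      rw [h3]; ring
    rw [this, coeff3_aux]
  · rw [e0, coeff3_aux]

lemma natDegree_prod_hh_le (q : R) {m : ℕ} (z : Fin m → R) (a : Bool) (s : Fin m → Bool) :
    (∏ j, hh (C q) a (s j) X (C (z j) : R[X])).natDegree ≤ 3 * m := by
  refine (natDegree_prod_le _ _).trans ?_
  refine (Finset.sum_le_sum (fun j _ => natDegree_hh_le q (z j) a (s j))).trans ?_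
  simp [mul_comm]

lemma coeff_prod_hh (q : R) (hq : q ^ 3 = 1) {m : ℕ} (z : Fin m → R) (a : Bool)
    (s : Fin m → Bool) :
    (∏ j, hh (C q) a (s j) X (C (z j) : R[X])).coeff (3 * m) = (-1) ^ m := by
  have := coeff_prod_of_natDegree_le (s := (Finset.univ : Finset (Fin m)))
    (fun j => hh (C q) a (s j) X (C (z j) : R[X])) 3
    (fun j _ => natDegree_hh_le q (z j) a (s j))
  simp only [Finset.card_univ, Fintype.card_fin] at this
  rw [mul_comm 3 m, this]
  simp [coeff_hh q hq]

/-- the numerator as a polynomial in its first variable -/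
lemma natDegree_QQ_le (q ω : R) {m : ℕ} (z : Fin m → R) :
    (QQ (C q) (C ω) (m + 1) (Fin.cons X (fun j => C (z j)) : Fin (m + 1) → R[X])).natDegree
      ≤ 3 * m := by
  rw [QQ_cons]
  refine natDegree_sum_le_of_forall_le _ _ (fun s _ => ?_)
  have hw : wt (C ω : R[X]) s = C (wt ω s) := by
    unfold wt; rw [map_prod]
    refine Finset.prod_congr rfl fun i _ => ?_
    split_ifs <;> simp
  have hp : pp (C q : R[X]) s (fun j => C (z j)) = C (pp q s z) := by
    unfold pp; rw [map_prod]
    refine Finset.prod_congr rfl fun i _ => ?_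
    rw [map_prod]
    refine Finset.prod_congr rfl fun j _ => ?_
    cases s i <;> cases s j <;> simp [hh]
  rw [hw, hp]
  refine (natDegree_mul_C_le _ _).trans ?_
  refine (natDegree_C_mul_le _ _).trans ?_
  refine (natDegree_add_le _ _).trans ?_
  refine max_le ?_ (natDegree_prod_hh_le q z false s)
  exact (natDegree_C_mul_le _ _).trans (natDegree_prod_hh_le q z true s)

lemma coeff_QQ (q ω : R) (hq : q ^ 3 = 1) {m : ℕ} (z : Fin m → R) :
    (QQ (C q) (C ω) (m + 1) (Fin.cons X (fun j => C (z j)) : Fin (m + 1) → R[X])).coeff (3 * m)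
      = (-1) ^ m * (1 + ω) * QQ q ω m z := by
  rw [QQ_cons, finsetSum_coeff]
  unfold QQ
  rw [Finset.mul_sum]
  refine Finset.sum_congr rfl fun s _ => ?_
  have hw : wt (C ω : R[X]) s = C (wt ω s) := by
    unfold wt; rw [map_prod]
    refine Finset.prod_congr rfl fun i _ => ?_
    split_ifs <;> simp
  have hp : pp (C q : R[X]) s (fun j => C (z j)) = C (pp q s z) := by
    unfold pp; rw [map_prod]
    refine Finset.prod_congr rfl fun i _ => ?_
    rw [map_prod]
    refine Finset.prod_congr rfl fun j _ => ?_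
    cases s i <;> cases s j <;> simp [hh]
  rw [hw, hp, coeff_mul_C, coeff_C_mul, coeff_add, coeff_C_mul,
    coeff_prod_hh q hq, coeff_prod_hh q hq]
  ring

lemma natDegree_VV_le {m : ℕ} (z : Fin m → R) :
    (VV (m + 1) (Fin.cons X (fun j => C (z j)) : Fin (m + 1) → R[X])).natDegree ≤ m := by
  rw [VV_cons]
  have hp : VV m (fun j => (C (z j) : R[X])) = C (VV m z) := by
    rw [VV_map]
  rw [hp]
  refine (natDegree_mul_C_le _ _).trans ?_
  refine (natDegree_prod_le _ _).trans ?_
  have : ∀ j ∈ (Finset.univ : Finset (Fin m)), (C (z j) - X : R[X]).natDegree ≤ 1 := by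
    intro j _; compute_degree
  refine (Finset.sum_le_sum this).trans ?_
  simp

lemma coeff_VV {m : ℕ} (z : Fin m → R) :
    (VV (m + 1) (Fin.cons X (fun j => C (z j)) : Fin (m + 1) → R[X])).coeff m
      = (-1) ^ m * VV m z := by
  rw [VV_cons]
  have hp : VV m (fun j => (C (z j) : R[X])) = C (VV m z) := by
    rw [VV_map]
  rw [hp, coeff_mul_C]
  have := coeff_prod_of_natDegree_le (s := (Finset.univ : Finset (Fin m)))
    (fun j => (C (z j) - X : R[X])) 1 (fun j _ => by compute_degree)
  simp only [Finset.card_univ, Fintype.card_fin, mul_one] at this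
  rw [this]
  congr 1
  simp

end EX93
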