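import Pool.Agent.H93.EX.Basic

namespace EX93

open Finset Polynomial Matrix

section
variable {R : Type*} [CommRing R] {L : ℕ}

/-- bilinear kernel -/
def gg (x y : R) : R := 1 - y + x * y

/-- entry of the mixed matrix -/
def ent (ω : R) (x : Fin L → R) (b : Bool) (j k : Fin L) : R :=
  (if b then ω * ∏ l, gg (x l) (x j) else ∏ l, gg (x j) (x l)) *
    (projVandermonde (fun j => if b then x j else 1) (fun j => if b then 1 else 1 - x j) j k)

/-- the matrix `W` -/
def WW (ω : R) (x : Fin L → R) : Matrix (Fin L) (Fin L) R :=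
  Matrix.of fun j k => ent ω x true j k + ent ω x false j k

/-- the local factor in the new coordinates -/
def rr (x y : R) : Bool → Bool → R
  | true, true => (y - x) * gg x y * gg y x
  | false, false => (y - x) * gg x y * gg y x
  | true, false => gg y x ^ 3
  | false, true => - gg x y ^ 3

lemma det_WW_expand (ω : R) (x : Fin L → R) :
    (WW ω x).det = ∑ s : Fin L → Bool, (Matrix.of fun j k => ent ω x (s j) j k).det := by
  rw [← Matrix.det_transpose, Matrix.det_apply]
  have h1 : ∀ σ : Equiv.Perm (Fin L), (∏ i, (WW ω x)ᵀ (σ i) i)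
      = ∑ s : Fin L → Bool, ∏ i, ent ω x (s i) i (σ i) := by
    intro σ
    have : ∀ i, (WW ω x)ᵀ (σ i) i = ∑ b : Bool, ent ω x b i (σ i) := by
      intro i
      simp [WW, Matrix.transpose_apply]
    simp_rw [this]
    rw [Finset.prod_univ_sum, Fintype.piFinset_univ]
  simp_rw [h1, Finset.smul_sum]
  rw [Finset.sum_comm]
  refine Finset.sum_congr rfl fun s _ => ?_
  rw [← Matrix.det_transpose, Matrix.det_apply]
  rfl

lemma det_mixed (ω : R) (x : Fin L → R) (s : Fin L → Bool) :
    (Matrix.of fun j k => ent ω x (s j) j k).det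
      = (∏ i, if s i then ω * ∏ l, gg (x l) (x i) else ∏ l, gg (x i) (x l)) *
        ∏ i, ∏ j ∈ Ioi i, ((if s j then x j else 1) * (if s i then 1 else 1 - x i)
          - (if s i then x i else 1) * (if s j then 1 else 1 - x j)) := by
  have : (Matrix.of fun j k => ent ω x (s j) j k) = Matrix.of fun j k =>
      (if s j then ω * ∏ l, gg (x l) (x j) else ∏ l, gg (x j) (x l)) *
      (projVandermonde (fun j => if s j then x j else 1) (fun j => if s j then 1 else 1 - x j)) j k := by
    ext j k
    simp only [Matrix.of_apply, ent, projVandermonde_apply]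
  rw [this, Matrix.det_mul_column, Matrix.det_projVandermonde]

lemma prod_offdiag (f : Fin L → Fin L → R) :
    ∏ i, ∏ l, f i l = (∏ i, f i i) * ∏ i, ∏ j ∈ Ioi i, (f i j * f j i) := by
  have h1 := Finset.prod_prod_Ioi_mul_eq_prod_prod_off_diag (fun i j => f j i)
  rw [h1, ← Finset.prod_mul_distrib]
  refine Finset.prod_congr rfl fun i _ => ?_
  rw [← Finset.mul_prod_erase Finset.univ (fun l => f i l) (Finset.mem_univ i)]
  congr 1
  refine Finset.prod_congr ?_ fun _ _ => rfl
  ext l; simp

lemma mixed_eq (x : Fin L → R) (s : Fin L → Bool) :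
    (∏ i, if s i then ∏ l, gg (x l) (x i) else ∏ l, gg (x i) (x l)) *
        ∏ i, ∏ j ∈ Ioi i, ((if s j then x j else 1) * (if s i then 1 else 1 - x i)
          - (if s i then x i else 1) * (if s j then 1 else 1 - x j))
      = (∏ i, gg (x i) (x i)) * ∏ i, ∏ j ∈ Ioi i, rr (x i) (x j) (s i) (s j) := by
  have h1 : (∏ i, if s i then ∏ l, gg (x l) (x i) else ∏ l, gg (x i) (x l))
      = ∏ i, ∏ l, (if s i then gg (x l) (x i) else gg (x i) (x l)) := by
    refine Finset.prod_congr rfl fun i _ => ?_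
    split_ifs <;> rfl
  rw [h1, prod_offdiag, mul_assoc, ← Finset.prod_mul_distrib]
  have h2 : (∏ i, if s i then gg (x i) (x i) else gg (x i) (x i)) = ∏ i, gg (x i) (x i) := by
    refine Finset.prod_congr rfl fun i _ => ?_
    split_ifs <;> rfl
  rw [h2]
  congr 1
  refine Finset.prod_congr rfl fun i _ => ?_
  rw [← Finset.prod_mul_distrib]
  refine Finset.prod_congr rfl fun j _ => ?_
  cases s i <;> cases s j <;> simp [rr, gg] <;> ring

lemma det_WW (ω : R) (x : Fin L → R) :
    (WW ω x).det = (∏ i, gg (x i) (x i)) *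
      ∑ s : Fin L → Bool, wt ω s * ∏ i, ∏ j ∈ Ioi i, rr (x i) (x j) (s i) (s j) := by
  rw [det_WW_expand, Finset.mul_sum]
  refine Finset.sum_congr rfl fun s _ => ?_
  rw [det_mixed]
  have h1 : (∏ i, if s i then ω * ∏ l, gg (x l) (x i) else ∏ l, gg (x i) (x l))
      = wt ω s * ∏ i, if s i then ∏ l, gg (x l) (x i) else ∏ l, gg (x i) (x l) := by
    unfold wt
    rw [← Finset.prod_mul_distrib]
    refine Finset.prod_congr rfl fun i _ => ?_
    split_ifs <;> simp
  rw [h1, mul_assoc, mixed_eq]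
  ring

end

section
variable {L : ℕ}

/-- local comparison between the multiplicative and the Moebius coordinates -/
lemma hh_eq_rr (q : ℂ) (hq : q ^ 2 + q + 1 = 0) (x y : ℂ) (hx : x + q ≠ 0) (hy : y + q ≠ 0)
    (a b : Bool) :
    hh q a b ((q ^ 2 * x + q) / (x + q)) ((q ^ 2 * y + q) / (y + q)) * ((x + q) * (y + q)) ^ 3
      = ((1 - q) * (3 * q)) * rr x y a b := by
  have q3 : q ^ 3 = 1 := by linear_combination (q - 1) * hq
  have e1 : ((q ^ 2 * y + q) / (y + q) - (q ^ 2 * x + q) / (x + q)) * ((x + q) * (y + q))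
      = (1 - q) * (y - x) := by
    field_simp
    linear_combination (y - x) * q3
  have e2 : ((q ^ 2 * x + q) / (x + q) - q * ((q ^ 2 * y + q) / (y + q))) * ((x + q) * (y + q))
      = (q ^ 2 - 1) * gg y x := by
    unfold gg
    field_simp
    linear_combination (x - x * y - q * y - 1) * q3
  have e3 : ((q ^ 2 * y + q) / (y + q) - q * ((q ^ 2 * x + q) / (x + q))) * ((x + q) * (y + q))
      = (q ^ 2 - 1) * gg x y := by
    unfold gg
    field_simp
    linear_combination (y - x * y - q * x - 1) * q3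
  have e4 : ∀ u v : ℂ, u ^ 3 - v ^ 3 = (u - v) * (u - q * v) * (-q ^ 2) * (v - q * u) := by
    intro u v
    linear_combination ((u - v) * u * v) * hq + ((u - v) * (-(u ^ 2 + v ^ 2) + u * v * q)) * q3
  set u := (q ^ 2 * x + q) / (x + q) with hu
  set v := (q ^ 2 * y + q) / (y + q) with hv
  set t := (x + q) * (y + q) with ht
  have e5 : (v ^ 3 - u ^ 3) * t ^ 3 = ((1 - q) * (3 * q)) * ((y - x) * gg x y * gg y x) := by
    have : (v ^ 3 - u ^ 3) * t ^ 3
        = (-q ^ 2) * ((v - u) * t) * ((v - q * u) * t) * ((u - q * v) * t) := by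
      rw [e4 v u]; ring
    rw [this, e1, e2, e3]
    have h9 : (-q ^ 2) * (q ^ 2 - 1) ^ 2 = 3 * q := by
      linear_combination (-(q ^ 4) + q ^ 3 + 2 * q ^ 2 - 3 * q) * hq
    linear_combination ((1 - q) * (y - x) * gg x y * gg y x) * h9
  have e6 : (q ^ 2 - 1) ^ 3 = -((1 - q) * (3 * q)) := by
    linear_combination (q ^ 4 - q ^ 3 - 3 * q ^ 2 + 4 * q - 1) * hq
  cases a <;> cases b <;> simp only [hh, rr]
  · exact e5
  · have : (v - q * u) ^ 3 * t ^ 3 = ((v - q * u) * t) ^ 3 := by ring
    rw [this, e3]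
    linear_combination (gg x y) ^ 3 * e6
  · have : -(u - q * v) ^ 3 * t ^ 3 = -((u - q * v) * t) ^ 3 := by ring
    rw [this, e2]
    linear_combination -(gg y x) ^ 3 * e6
  · exact e5

end

end EX93
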