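import Pool.Agent.H93.EX.Hom1

namespace EX93

open Finset Polynomial Matrix

section
variable {R : Type*} [CommRing R] {L : ℕ}

noncomputable def bpol (x : Fin L → R) : R[X] := ∏ l, gg (C (x l)) X
noncomputable def cpol (x : Fin L → R) : R[X] := ∏ l, gg X (C (x l))
noncomputable def Apol (x : Fin L → R) : R[X] := ∏ l, (X - C (x l))

noncomputable def rpol (ω : R) (x : Fin L → R) (k : Fin L) : R[X] :=
  C ω * bpol x * X ^ (k : ℕ) + cpol x * (1 - X) ^ (k.rev : ℕ)

/-- the matrix with polynomial entries -/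
noncomputable def NN (ω : R) (x : Fin L → R) : Matrix (Fin L) (Fin L) R :=
  Matrix.of fun i k => (rpol ω x k %ₘ Apol x).coeff i

lemma Apol_monic (x : Fin L → R) : (Apol x).Monic :=
  monic_prod_of_monic _ _ (fun _ _ => monic_X_sub_C _)

lemma eval_rpol (ω : R) (x : Fin L → R) (j k : Fin L) :
    (rpol ω x k).eval (x j) = WW ω x j k := by
  unfold rpol bpol cpol WW
  simp only [Matrix.of_apply, ent, projVandermonde_apply, if_true, Bool.false_eq_true, if_false]
  simp only [eval_add, eval_mul, eval_C, eval_prod, eval_pow, eval_X, eval_sub, eval_one, gg]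
  simp

lemma vand_mul_NN [IsDomain R] (ω : R) (x : Fin L → R) : vandermonde x * NN ω x = WW ω x := by
  ext j k
  rw [Matrix.mul_apply, ← eval_rpol]
  have hL : 0 < L := Fin.pos j
  have hdeg : (Apol x).natDegree = L := by
    unfold Apol
    rw [natDegree_prod_of_monic _ _ (fun _ _ => monic_X_sub_C _)]
    simp
  have hne : Apol x ≠ 1 := by
    intro h
    rw [h] at hdeg
    simp at hdeg
    omega
  have h1 : (rpol ω x k %ₘ Apol x).natDegree < L := by
    have := natDegree_modByMonic_lt (rpol ω x k) (Apol_monic x) hne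
    rwa [hdeg] at this
  have h2 : (rpol ω x k %ₘ Apol x).eval (x j) = (rpol ω x k).eval (x j) := by
    have := modByMonic_add_div (rpol ω x k) (Apol x)
    conv_rhs => rw [← this]
    have hA : (Apol x).eval (x j) = 0 := by
      unfold Apol
      rw [eval_prod]
      exact Finset.prod_eq_zero (Finset.mem_univ j) (by simp)
    rw [eval_add, eval_mul, hA, zero_mul, add_zero]
  rw [← h2, eval_eq_sum_range' h1, Finset.sum_range]
  refine Finset.sum_congr rfl fun i _ => ?_
  simp only [vandermonde_apply, NN, Matrix.of_apply]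
  ring

lemma det_WW_eq [IsDomain R] (ω : R) (x : Fin L → R) :
    (WW ω x).det = VV L x * (NN ω x).det := by
  rw [← vand_mul_NN, Matrix.det_mul, Matrix.det_vandermonde]
  rfl

lemma NN_map {S : Type*} [CommRing S] (f : R →+* S) (ω : R) (x : Fin L → R) :
    (NN ω x).map f = NN (f ω) (fun i => f (x i)) := by
  ext i k
  simp only [NN, Matrix.map_apply, Matrix.of_apply]
  rw [← coeff_map, map_modByMonic _ (Apol_monic x)]
  congr 2
  · unfold rpol bpol cpol gg
    simp [Polynomial.map_prod]
  · unfold Apol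
    simp [Polynomial.map_prod]

/-- the symmetric Pascal matrix -/
def pasc (R : Type*) [CommRing R] (L : ℕ) : Matrix (Fin L) (Fin L) R :=
  Matrix.of fun i j => ((Nat.choose ((i : ℕ) + j) i : ℕ) : R)

/-- unitriangular factor -/
noncomputable def UU (R : Type*) [CommRing R] (L : ℕ) : Matrix (Fin L) (Fin L) R :=
  Matrix.of fun i j => ((1 - X : R[X]) ^ L * X ^ (j : ℕ)).coeff i

lemma det_UU : (UU R L).det = 1 := by
  have h : (UU R L).BlockTriangular OrderDual.toDual := by
    intro i j hij
    have hij' : i < j := hij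
    simp only [UU, Matrix.of_apply]
    rw [coeff_mul_X_pow', if_neg (by simpa using hij')]
  rw [Matrix.det_of_isLowerTriangular _ h]
  refine Finset.prod_eq_one fun i _ => ?_
  simp only [UU, Matrix.of_apply]
  rw [coeff_mul_X_pow', if_pos le_rfl, Nat.sub_self, coeff_zero_eq_eval_zero]
  simp

lemma pasc_series (k L : ℕ) (hk : k < L) :
    ((1 : PowerSeries R) - PowerSeries.X) ^ L *
      PowerSeries.mk (fun n => ((Nat.choose (k + n) k : ℕ) : R))
      = ((1 : PowerSeries R) - PowerSeries.X) ^ (L - (k + 1)) := by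
  rw [← PowerSeries.mk_one_pow_eq_mk_choose_add]
  have h := PowerSeries.mk_one_mul_one_sub_eq_one (S := R)
  have : L = (L - (k + 1)) + (k + 1) := by omega
  conv_lhs => rw [this, pow_add]
  rw [mul_assoc, ← mul_pow, mul_comm (1 - PowerSeries.X), h, one_pow, mul_one]

lemma NN_zero_eq [Nontrivial R] (ω : R) :
    NN ω (fun _ => 0 : Fin L → R) = UU R L * (ω • (1 : Matrix (Fin L) (Fin L) R) + pasc R L) := by
  ext i k
  have hA : Apol (fun _ => 0 : Fin L → R) = X ^ L := by
    unfold Apol; simp
  have hb : bpol (fun _ => 0 : Fin L → R) = (1 - X) ^ L := by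
    unfold bpol gg; simp
  have hc : cpol (fun _ => 0 : Fin L → R) = 1 := by
    unfold cpol gg; simp
  simp only [NN, Matrix.of_apply]
  rw [hA]
  have hmod : ∀ P : R[X], (P %ₘ X ^ L).coeff i = P.coeff i := by
    intro P
    have := modByMonic_add_div P (X ^ L : R[X])
    conv_rhs => rw [← this]
    rw [coeff_add, mul_comm, coeff_mul_X_pow', if_neg (by simp), add_zero]
  rw [hmod]
  unfold rpol
  rw [hb, hc, one_mul, mul_assoc, coeff_add, coeff_C_mul]
  rw [Matrix.mul_add, Matrix.add_apply, Matrix.mul_smul, Matrix.mul_one, Matrix.smul_apply,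
    smul_eq_mul]
  congr 1
  rw [Matrix.mul_apply]
  -- power series comparison
  have hk : (k : ℕ) < L := k.2
  have h1 := congrArg (PowerSeries.coeff (i : ℕ)) (pasc_series (R := R) k L hk)
  have h2 : PowerSeries.coeff (i : ℕ) (((1 : PowerSeries R) - PowerSeries.X) ^ (L - (k + 1)))
      = ((1 - X : R[X]) ^ (k.rev : ℕ)).coeff i := by
    rw [Fin.val_rev]
    have : (((1 : PowerSeries R) - PowerSeries.X) ^ (L - (k + 1)))
        = (((1 - X : R[X]) ^ (L - (k + 1)) : R[X]) : PowerSeries R) := by
      simp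
    rw [this, Polynomial.coeff_coe]
  rw [h2] at h1
  rw [← h1]
  have h3 : ((1 : PowerSeries R) - PowerSeries.X) ^ L = (((1 - X : R[X]) ^ L : R[X]) : PowerSeries R) := by
    simp
  rw [h3, PowerSeries.coeff_mul, Finset.Nat.sum_antidiagonal_eq_sum_range_succ_mk]
  simp only [Polynomial.coeff_coe, PowerSeries.coeff_mk, UU, pasc, Matrix.of_apply]
  -- sum over Fin L of coeff((1-X)^L X^j) i * C(j+k, j)
  have h4 : ∀ j : Fin L, ((1 - X : R[X]) ^ L * X ^ (j : ℕ)).coeff i *
      ((Nat.choose ((j : ℕ) + k) j : ℕ) : R)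
      = if (j : ℕ) ≤ i then ((1 - X : R[X]) ^ L).coeff (i - j) *
        ((Nat.choose ((j : ℕ) + k) j : ℕ) : R) else 0 := by
    intro j
    rw [coeff_mul_X_pow']
    split_ifs <;> simp
  rw [Finset.sum_congr rfl (fun j _ => h4 j)]
  rw [Fin.sum_univ_eq_sum_range (fun j => if j ≤ (i : ℕ) then ((1 - X : R[X]) ^ L).coeff (i - j) *
        ((Nat.choose (j + k) j : ℕ) : R) else 0) L]
  rw [← Finset.sum_filter]
  have h5 : (Finset.range L).filter (fun j => j ≤ (i : ℕ)) = Finset.range ((i : ℕ) + 1) := by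
    ext j
    simp only [Finset.mem_filter, Finset.mem_range]
    have := i.2
    omega
  rw [h5, ← Finset.sum_range_reflect]
  refine Finset.sum_congr rfl fun j hj => ?_
  rw [Finset.mem_range] at hj
  have e1 : (i : ℕ) + 1 - 1 - j = i - j := by omega
  have e2 : (i : ℕ) - (i - j) = j := by omega
  have e3 : Nat.choose ((j : ℕ) + k) j = Nat.choose (k + j) k := by
    rw [Nat.choose_symm_add, Nat.add_comm]
  rw [e1, e2, e3]

lemma NN_zero [Nontrivial R] (ω : R) :
    (NN ω (fun _ => 0 : Fin L → R)).det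
      = (ω • (1 : Matrix (Fin L) (Fin L) R) + pasc R L).det := by
  rw [NN_zero_eq, Matrix.det_mul, det_UU, one_mul]

end

end EX93
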