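import Pool.Agent.H93.EX.Step

namespace EX93

open Finset Polynomial

/-- **Uniqueness theorem**: a family of symmetric polynomials with the wheel recursion and the
prescribed top coefficient is the explicit symmetric function `QQ / VV`. -/
theorem main_identity (q ω κ τ : ℂ) (hq : q ^ 2 + q + 1 = 0)
    (hτ : ω * (τ + 2) = (1 + ω) ^ 2)
    (G : (n : ℕ) → MvPolynomial (Fin (2 * n)) ℂ)
    (h0 : ∀ z, MvPolynomial.eval z (G 0) = 1)
    (hsym : ∀ n (σ : Equiv.Perm (Fin (2 * n))) (z : Fin (2 * n) → ℂ),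
      MvPolynomial.eval (z ∘ σ) (G n) = MvPolynomial.eval z (G n))
    (hwheel : ∀ n (w : ℂ) (z : Fin (2 * n) → ℂ),
      MvPolynomial.eval (Fin.cons (q ^ 2 * w) (Fin.cons w z : Fin (2 * n + 1) → ℂ)
        : Fin (2 * n + 2) → ℂ) (G (n + 1))
      = 3 * κ * q ^ 2 * w ^ 2 * (∏ j, (z j - q * w) ^ 4) * MvPolynomial.eval z (G n))
    (htop : ∀ n (z : Fin (2 * n) → ℂ), ∃ p : ℂ[X][X],
      p.natDegree ≤ 2 * (2 * n + 1) ∧ (p.coeff (2 * (2 * n + 1))).natDegree ≤ 2 * (2 * n) ∧
      (p.coeff (2 * (2 * n + 1))).coeff (2 * (2 * n)) = κ * (τ + 2) * MvPolynomial.eval z (G n) ∧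
      ∀ x y : ℂ, (p.eval (C x)).eval y = MvPolynomial.eval
        (Fin.cons x (Fin.cons y z : Fin (2 * n + 1) → ℂ) : Fin (2 * n + 2) → ℂ) (G (n + 1))) :
    ∀ n (z : Fin (2 * n) → ℂ),
      ω ^ n * MvPolynomial.eval z (G n) * VV (2 * n) z = κ ^ n * QQ q ω (2 * n) z := by
  intro n
  induction n with
  | zero =>
    intro z
    rw [h0]
    have e1 : VV (2 * 0) z = 1 := by simp [VV]
    have e2 : QQ q ω (2 * 0) z = 1 := by simp [QQ, wt, pp]
    rw [e1, e2]; simp
  | succ n ih =>
    have q3' := q3 hq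
    -- wheel
    have hw : ∀ (w : ℂ) (z : Fin (2 * n) → ℂ),
        ω ^ (n + 1) * MvPolynomial.eval (Fin.cons (q ^ 2 * w)
          (Fin.cons w z : Fin (2 * n + 1) → ℂ) : Fin (2 * n + 2) → ℂ) (G (n + 1)) *
        VV (2 * n + 2) (Fin.cons (q ^ 2 * w) (Fin.cons w z : Fin (2 * n + 1) → ℂ)) =
        κ ^ (n + 1) * QQ q ω (2 * n + 2)
          (Fin.cons (q ^ 2 * w) (Fin.cons w z : Fin (2 * n + 1) → ℂ)) := by
      intro w z
      rw [hwheel, VV_wheel, QQ_wheel q ω hq]
      have hprod : (∏ j, ((z j - w) * (z j - q ^ 2 * w) * (z j - q * w) ^ 4))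
          = (∏ j, (z j - q * w) ^ 4) * ∏ j, ((z j - w) * (z j - q ^ 2 * w)) := by
        rw [← Finset.prod_mul_distrib]
        exact Finset.prod_congr rfl (fun j _ => by ring)
      rw [hprod]
      have hi := ih z
      have hc : 3 * q ^ 2 * (1 - q ^ 2) = -(q ^ 2 - q) ^ 3 := by
        linear_combination (q ^ 3 - 3 * q ^ 2) * q3'
      have : ω ^ (n + 1) * (3 * κ * q ^ 2 * w ^ 2 * (∏ j, (z j - q * w) ^ 4)
            * MvPolynomial.eval z (G n)) *
          ((1 - q ^ 2) * w * (∏ j, ((z j - w) * (z j - q ^ 2 * w))) * VV (2 * n) z)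
          = (3 * q ^ 2 * (1 - q ^ 2)) * κ * ω * w ^ 3 * (∏ j, (z j - q * w) ^ 4) *
            (∏ j, ((z j - w) * (z j - q ^ 2 * w))) *
            (ω ^ n * MvPolynomial.eval z (G n) * VV (2 * n) z) := by ring
      rw [this, hi, hc]
      ring
    -- generic points
    have hgen : ∀ (z : Fin (2 * n) → ℂ), (∀ i, z i ≠ 0) → (∀ i j, i ≠ j → z i ^ 3 ≠ z j ^ 3) →
        ∀ x y : ℂ, ω ^ (n + 1) * MvPolynomial.eval (Fin.cons x
          (Fin.cons y z : Fin (2 * n + 1) → ℂ) : Fin (2 * n + 2) → ℂ) (G (n + 1)) *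
        VV (2 * n + 2) (Fin.cons x (Fin.cons y z : Fin (2 * n + 1) → ℂ)) =
        κ ^ (n + 1) * QQ q ω (2 * n + 2)
          (Fin.cons x (Fin.cons y z : Fin (2 * n + 1) → ℂ)) := by
      intro z hz hz' x y
      obtain ⟨p, hp1, hp2, hp3, hp4⟩ := htop n z
      refine step (m := 2 * n) q ω (ω ^ (n + 1)) (κ ^ (n + 1)) hq
        (fun Z => MvPolynomial.eval Z (G (n + 1))) (fun Z σ => hsym (n + 1) σ Z) hw z hz hz' p hp1
        hp2 ?_ hp4 x y
      have hi := ih z
      rw [hp3]
      linear_combination (κ * ω * (τ + 2)) * hi + κ ^ (n + 1) * QQ q ω (2 * n) z * hτ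
    -- density
    set D : MvPolynomial (Fin (2 * n + 2)) ℂ :=
      (∏ i : Fin (2 * n), MvPolynomial.X i.succ.succ) *
      ∏ i : Fin (2 * n), ∏ j : Fin (2 * n), (if i = j then 1 else
        (MvPolynomial.X i.succ.succ ^ 3 - MvPolynomial.X j.succ.succ ^ 3)) with hD
    have hDev : ∀ Z : Fin (2 * n + 2) → ℂ, MvPolynomial.eval Z D =
        (∏ i : Fin (2 * n), Z i.succ.succ) *
        ∏ i : Fin (2 * n), ∏ j : Fin (2 * n), (if i = j then 1 else
          (Z i.succ.succ ^ 3 - Z j.succ.succ ^ 3)) := by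
      intro Z
      rw [hD, map_mul, map_prod, map_prod]
      congr 1
      · simp
      · refine Finset.prod_congr rfl fun i _ => ?_
        rw [map_prod]
        refine Finset.prod_congr rfl fun j _ => ?_
        split_ifs <;> simp
    have hD0 : D ≠ 0 := by
      intro h
      have h1 := hDev (fun i => (i : ℕ))
      rw [h, map_zero] at h1
      have h2 : (∏ i : Fin (2 * n), (((i.succ.succ : Fin (2 * n + 2)) : ℕ) : ℂ)) *
        ∏ i : Fin (2 * n), ∏ j : Fin (2 * n), (if i = j then 1 else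
          ((((i.succ.succ : Fin (2 * n + 2)) : ℕ) : ℂ) ^ 3
            - (((j.succ.succ : Fin (2 * n + 2)) : ℕ) : ℂ) ^ 3)) ≠ 0 := by
        refine mul_ne_zero ?_ ?_
        · refine Finset.prod_ne_zero_iff.mpr (fun i _ => ?_)
          simp only [Fin.val_succ]
          exact Nat.cast_ne_zero.mpr (Nat.succ_ne_zero (i.val + 1))
        · refine Finset.prod_ne_zero_iff.mpr (fun i _ => Finset.prod_ne_zero_iff.mpr
            (fun j _ => ?_))
          split_ifs with hij
          · exact one_ne_zero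
          · rw [sub_ne_zero]
            intro h3
            apply hij
            have h4 : ((i.succ.succ : Fin (2 * n + 2)) : ℕ) ^ 3
                = ((j.succ.succ : Fin (2 * n + 2)) : ℕ) ^ 3 := by exact_mod_cast h3
            have h5 := Nat.pow_left_injective (n := 3) (by norm_num) h4
            simp only [Fin.val_succ] at h5
            exact Fin.ext (by omega)
      exact h2 h1.symm
    set EE : MvPolynomial (Fin (2 * n + 2)) ℂ :=
      MvPolynomial.C (ω ^ (n + 1)) * G (n + 1) * VV (2 * n + 2) MvPolynomial.X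
      - MvPolynomial.C (κ ^ (n + 1)) * QQ (MvPolynomial.C q) (MvPolynomial.C ω) (2 * n + 2)
        MvPolynomial.X with hEE
    have hEEev : ∀ Z : Fin (2 * n + 2) → ℂ, MvPolynomial.eval Z EE
        = ω ^ (n + 1) * MvPolynomial.eval Z (G (n + 1)) * VV (2 * n + 2) Z
          - κ ^ (n + 1) * QQ q ω (2 * n + 2) Z := by
      intro Z
      rw [hEE, map_sub, map_mul, map_mul, map_mul, VV_map, QQ_map]
      simp
    have hprod0 : EE * D = 0 := by
      apply MvPolynomial.funext
      intro Z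
      rw [map_mul, map_zero]
      by_cases hDZ : MvPolynomial.eval Z D = 0
      · rw [hDZ, mul_zero]
      · have hDZ' := hDZ
        rw [hDev] at hDZ'
        have h1 := left_ne_zero_of_mul hDZ'
        have h2 := right_ne_zero_of_mul hDZ'
        have h3 : ∀ i : Fin (2 * n), Z i.succ.succ ≠ 0 := fun i =>
          Finset.prod_ne_zero_iff.mp h1 i (Finset.mem_univ _)
        have h4 : ∀ i j : Fin (2 * n), i ≠ j → Z i.succ.succ ^ 3 ≠ Z j.succ.succ ^ 3 := by
          intro i j hij
          have := Finset.prod_ne_zero_iff.mp (Finset.prod_ne_zero_iff.mp h2 i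
            (Finset.mem_univ _)) j (Finset.mem_univ _)
          rw [if_neg hij] at this
          exact sub_ne_zero.mp this
        have h5 := hgen (fun j => Z j.succ.succ) h3 h4 (Z 0) (Z 1)
        rw [← cons_cons_of Z] at h5
        rw [hEEev, h5, sub_self, zero_mul]
    have hEE0 : EE = 0 := by
      rcases mul_eq_zero.mp hprod0 with h | h
      · exact h
      · exact absurd h hD0
    intro z
    have := hEEev z
    rw [hEE0, map_zero] at this
    exact (sub_eq_zero.mp this.symm)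

end EX93
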