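import Pool.Agent.H93.EX.Hom2
import Pool.Agent.H93.EX.Induct

namespace EX93

open Finset Polynomial Matrix Filter Topology

/-- constant product over pairs -/
lemma pairs_const {R : Type*} [CommRing R] (L : ℕ) (c : R) :
    (∏ i : Fin L, ∏ _j ∈ Ioi i, c) = c ^ (L * (L - 1) / 2) := by
  simp only [Finset.prod_const, Fin.card_Ioi]
  rw [Finset.prod_pow_eq_pow_sum]
  congr 1
  rw [← Finset.sum_range_id, Fin.sum_univ_eq_sum_range (fun i => L - 1 - i) L,
    Finset.sum_range_reflect (fun i => i) L]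

/-- Moebius coordinate -/
noncomputable def zz (q : ℂ) {L : ℕ} (x : Fin L → ℂ) (i : Fin L) : ℂ :=
  (q ^ 2 * x i + q) / (x i + q)

/-- product of denominators over pairs -/
noncomputable def V2 (q : ℂ) {L : ℕ} (x : Fin L → ℂ) : ℂ :=
  ∏ i, ∏ j ∈ Ioi i, ((x i + q) * (x j + q))

lemma QQ_zz (q : ℂ) (hq : q ^ 2 + q + 1 = 0) (ω : ℂ) {L : ℕ} (x : Fin L → ℂ)
    (hx : ∀ i, x i + q ≠ 0) :
    QQ q ω L (zz q x) * V2 q x ^ 3 * ∏ i, gg (x i) (x i)
      = (∏ i : Fin L, ∏ _j ∈ Ioi i, ((1 - q) * (3 * q))) * (WW ω x).det := by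
  rw [det_WW]
  have h1 : QQ q ω L (zz q x) * V2 q x ^ 3
      = (∏ i : Fin L, ∏ _j ∈ Ioi i, ((1 - q) * (3 * q))) *
        ∑ s : Fin L → Bool, wt ω s * ∏ i, ∏ j ∈ Ioi i, rr (x i) (x j) (s i) (s j) := by
    unfold QQ
    rw [Finset.sum_mul, Finset.mul_sum]
    refine Finset.sum_congr rfl fun s _ => ?_
    have h2 : pp q s (zz q x) * V2 q x ^ 3 = (∏ i : Fin L, ∏ _j ∈ Ioi i, ((1 - q) * (3 * q))) *
        ∏ i, ∏ j ∈ Ioi i, rr (x i) (x j) (s i) (s j) := by
      unfold pp V2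
      rw [← Finset.prod_pow, ← Finset.prod_mul_distrib, ← Finset.prod_mul_distrib]
      refine Finset.prod_congr rfl fun i _ => ?_
      rw [← Finset.prod_pow, ← Finset.prod_mul_distrib, ← Finset.prod_mul_distrib]
      refine Finset.prod_congr rfl fun j _ => ?_
      exact hh_eq_rr q hq (x i) (x j) (hx i) (hx j) (s i) (s j)
    rw [mul_assoc, h2]; ring
  rw [h1]; ring

lemma VV_zz (q : ℂ) (hq : q ^ 2 + q + 1 = 0) {L : ℕ} (x : Fin L → ℂ)
    (hx : ∀ i, x i + q ≠ 0) :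
    VV L (zz q x) * V2 q x = (∏ i : Fin L, ∏ _j ∈ Ioi i, (1 - q)) * VV L x := by
  unfold VV V2
  rw [← Finset.prod_mul_distrib, ← Finset.prod_mul_distrib]
  refine Finset.prod_congr rfl fun i _ => ?_
  rw [← Finset.prod_mul_distrib, ← Finset.prod_mul_distrib]
  refine Finset.prod_congr rfl fun j _ => ?_
  have q3 : q ^ 3 = 1 := by linear_combination (q - 1) * hq
  have h1 := hx i
  have h2 := hx j
  unfold zz
  field_simp
  linear_combination (x j - x i) * q3

lemma VV_ne_zero {L : ℕ} (x : Fin L → ℂ) (hx : Function.Injective x) : VV L x ≠ 0 := by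
  unfold VV
  refine Finset.prod_ne_zero_iff.mpr fun i _ => Finset.prod_ne_zero_iff.mpr fun j hj => ?_
  rw [sub_ne_zero]
  intro h
  have := hx h
  rw [Finset.mem_Ioi] at hj
  exact absurd this (ne_of_gt hj)

/-- the evaluation in generic Moebius coordinates -/
lemma generic_eval (q ω κ : ℂ) (hq : q ^ 2 + q + 1 = 0) (n : ℕ)
    (G : MvPolynomial (Fin (2 * n)) ℂ)
    (hG : ∀ z, ω ^ n * MvPolynomial.eval z G * VV (2 * n) z = κ ^ n * QQ q ω (2 * n) z)
    (x : Fin (2 * n) → ℂ) (hx : ∀ i, x i + q ≠ 0) (hinj : Function.Injective x) :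
    ω ^ n * MvPolynomial.eval (zz q x) G * V2 q x ^ 2 * ∏ i, gg (x i) (x i)
      = κ ^ n * (∏ i : Fin (2 * n), ∏ _j ∈ Ioi i, (3 * q)) * (NN ω x).det := by
  have h1 := hG (zz q x)
  have h2 := QQ_zz q hq ω x hx
  have h3 := VV_zz q hq x hx
  rw [det_WW_eq] at h2
  have hV := VV_ne_zero x hinj
  have hq1 : (1 - q : ℂ) ≠ 0 := by
    intro h
    have : q = 1 := by linear_combination -h
    rw [this] at hq
    norm_num at hq
  have hC : (∏ i : Fin (2 * n), ∏ _j ∈ Ioi i, (1 - q)) ≠ 0 :=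
    Finset.prod_ne_zero_iff.mpr fun i _ => Finset.prod_ne_zero_iff.mpr fun j _ => hq1
  have h4 : (∏ i : Fin (2 * n), ∏ _j ∈ Ioi i, ((1 - q) * (3 * q)))
      = (∏ i : Fin (2 * n), ∏ _j ∈ Ioi i, (1 - q)) *
        ∏ i : Fin (2 * n), ∏ _j ∈ Ioi i, (3 * q) := by
    simp only [Finset.prod_mul_distrib]
  rw [h4] at h2
  apply mul_left_cancel₀ (mul_ne_zero hC hV)
  set A := ∏ i : Fin (2 * n), ∏ _j ∈ Ioi i, (1 - q)
  set B := ∏ i : Fin (2 * n), ∏ _j ∈ Ioi i, (3 * q)
  set V := VV (2 * n) x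
  set E := MvPolynomial.eval (zz q x) G
  linear_combination (-(ω ^ n) * E * V2 q x ^ 2 * (∏ i, gg (x i) (x i))) * h3
    + (V2 q x ^ 3 * (∏ i, gg (x i) (x i))) * h1 + κ ^ n * h2

lemma cont_det_NN (ω : ℂ) {L : ℕ} :
    Continuous fun t : ℂ => (NN ω (fun i : Fin L => t * (i : ℕ))).det := by
  have h : ∀ t : ℂ, (NN ω (fun i : Fin L => t * (i : ℕ))).det
      = ((NN (C ω) (fun i : Fin L => (X : ℂ[X]) * C ((i : ℕ) : ℂ))).det).eval t := by
    intro t
    have h1 := NN_map (evalRingHom t) (C ω) (fun i : Fin L => (X : ℂ[X]) * C ((i : ℕ) : ℂ))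
    have h2 := RingHom.map_det (evalRingHom t)
      (NN (C ω) (fun i : Fin L => (X : ℂ[X]) * C ((i : ℕ) : ℂ)))
    rw [coe_evalRingHom] at h2
    rw [h2]
    congr 1
    rw [RingHom.mapMatrix_apply, h1]
    simp
  simp_rw [h]
  exact Polynomial.continuous _

theorem eval_one (q ω κ τ : ℂ) (hq : q ^ 2 + q + 1 = 0)
    (hτ : ω * (τ + 2) = (1 + ω) ^ 2)
    (G : (n : ℕ) → MvPolynomial (Fin (2 * n)) ℂ)
    (h0 : ∀ z, MvPolynomial.eval z (G 0) = 1)
    (hsym : ∀ n (σ : Equiv.Perm (Fin (2 * n))) (z : Fin (2 * n) → ℂ),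
      MvPolynomial.eval (z ∘ σ) (G n) = MvPolynomial.eval z (G n))
    (hwheel : ∀ n (w : ℂ) (z : Fin (2 * n) → ℂ),
      MvPolynomial.eval (Fin.cons (q ^ 2 * w) (Fin.cons w z : Fin (2 * n + 1) → ℂ)
        : Fin (2 * n + 2) → ℂ) (G (n + 1))
      = 3 * κ * q ^ 2 * w ^ 2 * (∏ j, (z j - q * w) ^ 4) * MvPolynomial.eval z (G n))
    (htop : ∀ n (z : Fin (2 * n) → ℂ), ∃ p : ℂ[X][X],
      p.natDegree ≤ 2 * (2 * n + 1) ∧ (p.coeff (2 * (2 * n + 1))).natDegree ≤ 2 * (2 * n) ∧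
      (p.coeff (2 * (2 * n + 1))).coeff (2 * (2 * n)) = κ * (τ + 2) * MvPolynomial.eval z (G n) ∧
      ∀ x y : ℂ, (p.eval (C x)).eval y = MvPolynomial.eval
        (Fin.cons x (Fin.cons y z : Fin (2 * n + 1) → ℂ) : Fin (2 * n + 2) → ℂ) (G (n + 1))) (n : ℕ) :
    ω ^ n * MvPolynomial.eval (fun _ => 1) (G n)
      = κ ^ n * 3 ^ (n * (2 * n - 1)) *
        (ω • (1 : Matrix (Fin (2 * n)) (Fin (2 * n)) ℂ) + pasc ℂ (2 * n)).det := by
  have hmain := main_identity q ω κ τ hq hτ G h0 hsym hwheel htop n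
  have q3 : q ^ 3 = 1 := by linear_combination (q - 1) * hq
  have hq0 : q ≠ 0 := by
    rintro rfl
    norm_num at q3
  set x : ℂ → Fin (2 * n) → ℂ := fun t i => t * ((i : ℕ) : ℂ) with hx
  -- the two sides as functions of `t`
  set F1 : ℂ → ℂ := fun t => ω ^ n * MvPolynomial.eval (zz q (x t)) (G n) * V2 q (x t) ^ 2 *
    ∏ i, gg (x t i) (x t i) with hF1
  set F2 : ℂ → ℂ := fun t => κ ^ n * (∏ i : Fin (2 * n), ∏ _j ∈ Ioi i, (3 * q)) *
    (NN ω (x t)).det with hF2
  have hxc : ∀ i, Continuous fun t => x t i := fun i => by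
    simp only [hx]; fun_prop
  have hx0 : ∀ i, x 0 i = 0 := fun i => by simp [hx]
  have c2 : ContinuousAt F2 0 := by
    have := cont_det_NN ω (L := 2 * n)
    exact (continuous_const.mul this).continuousAt
  have c1 : ContinuousAt F1 0 := by
    have ca : ContinuousAt (fun t => MvPolynomial.eval (zz q (x t)) (G n)) 0 := by
      have hz : ContinuousAt (fun t => zz q (x t)) 0 := by
        rw [continuousAt_pi]
        intro i
        unfold zz
        apply ContinuousAt.div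
        · exact ((continuous_const.mul (hxc i)).add continuous_const).continuousAt
        · exact ((hxc i).add continuous_const).continuousAt
        · rw [hx0, zero_add]; exact hq0
      exact ContinuousAt.comp (f := fun t => zz q (x t))
        (g := fun z => MvPolynomial.eval z (G n)) (MvPolynomial.continuous_eval (G n)).continuousAt hz
    have cb : Continuous (fun t => V2 q (x t)) := by
      unfold V2
      refine continuous_finsetProd _ fun i _ => continuous_finsetProd _ fun j _ => ?_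
      exact ((hxc i).add continuous_const).mul ((hxc j).add continuous_const)
    have cc : Continuous (fun t => ∏ i, gg (x t i) (x t i)) := by
      refine continuous_finsetProd _ fun i _ => ?_
      unfold gg
      exact (continuous_const.sub (hxc i)).add ((hxc i).mul (hxc i))
    exact ((continuousAt_const.mul ca).mul (cb.pow 2).continuousAt).mul cc.continuousAt
  have heq : F1 =ᶠ[𝓝[≠] 0] F2 := by
    have hne : ∀ i, ∀ᶠ t in 𝓝[≠] (0 : ℂ), x t i + q ≠ 0 := by
      intro i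
      have : ContinuousAt (fun t => x t i + q) 0 := ((hxc i).add continuous_const).continuousAt
      have h1 : ∀ᶠ t in 𝓝 (0 : ℂ), x t i + q ≠ 0 := by
        apply this.eventually_ne
        rw [hx0, zero_add]; exact hq0
      exact h1.filter_mono nhdsWithin_le_nhds
    have hne' : ∀ᶠ t in 𝓝[≠] (0 : ℂ), ∀ i, x t i + q ≠ 0 := Filter.eventually_all.mpr hne
    filter_upwards [hne', self_mem_nhdsWithin] with t ht ht0
    have hinj : Function.Injective (x t) := by
      intro i j hij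
      simp only [hx] at hij
      have := mul_left_cancel₀ ht0 hij
      exact Fin.ext (by exact_mod_cast this)
    exact generic_eval q ω κ hq n (G n) hmain (x t) ht hinj
  have t1 : Tendsto F1 (𝓝[≠] 0) (𝓝 (F1 0)) := c1.tendsto.mono_left nhdsWithin_le_nhds
  have t2 : Tendsto F2 (𝓝[≠] 0) (𝓝 (F2 0)) := c2.tendsto.mono_left nhdsWithin_le_nhds
  have hlim : F1 0 = F2 0 := tendsto_nhds_unique t1 (t2.congr' heq.symm)
  -- evaluate at zero
  have hx0' : x 0 = fun _ => 0 := funext hx0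
  simp only [hF1, hF2] at hlim
  rw [hx0'] at hlim
  rw [NN_zero] at hlim
  have hzz : zz q (fun _ : Fin (2 * n) => (0 : ℂ)) = fun _ => 1 := by
    funext i
    simp [zz, hq0]
  have hV2 : V2 q (fun _ : Fin (2 * n) => (0 : ℂ)) = q ^ (2 * (n * (2 * n - 1))) := by
    unfold V2
    simp only [zero_add]
    rw [pairs_const, ← sq, ← pow_mul]
    congr 2
    rw [show 2 * n * (2 * n - 1) = 2 * (n * (2 * n - 1)) by ring]
    omega
  have hgg : (∏ _i : Fin (2 * n), gg (0 : ℂ) 0) = 1 := by simp [gg]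
  have hpairs : (2 * n) * (2 * n - 1) / 2 = n * (2 * n - 1) := by
    rw [show 2 * n * (2 * n - 1) = 2 * (n * (2 * n - 1)) by ring]
    omega
  rw [hzz, hV2, hgg, pairs_const, hpairs, mul_one, mul_pow] at hlim
  set N := n * (2 * n - 1)
  have hqN : q ^ N ≠ 0 := pow_ne_zero _ hq0
  have h5 : (q ^ (2 * N)) ^ 2 = q ^ N := by
    have : (q ^ (2 * N)) ^ 2 = (q ^ 3) ^ N * q ^ N := by
      rw [← pow_mul, ← pow_mul, ← pow_add]
      congr 1
      ring
    rw [this, q3, one_pow, one_mul]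
  rw [h5] at hlim
  apply mul_left_cancel₀ hqN
  linear_combination hlim

end EX93
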