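import Pool.Agent.H93.EX.Uniq

namespace EX93

open Finset Polynomial

section
variable {m : ℕ}

/-- the vector `(x, y, z)` in the bivariate polynomial ring (outer variable `x`) -/
noncomputable def wz (z : Fin m → ℂ) : Fin (m + 1) → ℂ[X] := Fin.cons X (fun j => C (z j))

noncomputable def ZZ (z : Fin m → ℂ) : Fin (m + 2) → ℂ[X][X] :=
  Fin.cons X (fun j => C (wz z j))

lemma map_wz (z : Fin m → ℂ) (b : ℂ) (j : Fin (m + 1)) :
    (wz z j).eval b = (Fin.cons b z : Fin (m + 1) → ℂ) j := by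
  unfold wz
  refine Fin.cases ?_ (fun i => ?_) j
  · simp
  · simp

lemma ev_ZZ (z : Fin m → ℂ) (a b : ℂ) (j : Fin (m + 2)) :
    ((ZZ z j).eval (C a)).eval b
      = (Fin.cons a (Fin.cons b z : Fin (m + 1) → ℂ) : Fin (m + 2) → ℂ) j := by
  unfold ZZ
  refine Fin.cases ?_ (fun i => ?_) j
  · simp
  · simp only [Fin.cons_succ, eval_C]
    exact map_wz z b i

/-- evaluation as a ring homomorphism -/
noncomputable def ev2 (a b : ℂ) : ℂ[X][X] →+* ℂ :=
  (evalRingHom b).comp (evalRingHom (C a))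

lemma ev2_apply (a b : ℂ) (p : ℂ[X][X]) : ev2 a b p = (p.eval (C a)).eval b := rfl

lemma ev2_eq_map (a b : ℂ) (p : ℂ[X][X]) : ev2 a b p = (p.map (evalRingHom b)).eval a := by
  rw [ev2_apply, eval_map]
  change (evalRingHom b) (eval₂ (RingHom.id _) (C a) p) = _
  rw [hom_eval₂]
  simp

theorem step (q ω A B : ℂ) (hq : q ^ 2 + q + 1 = 0)
    (G' : (Fin (m + 2) → ℂ) → ℂ)
    (hsym : ∀ Z (σ : Equiv.Perm (Fin (m + 2))), G' (Z ∘ σ) = G' Z)
    (hwheel : ∀ (w : ℂ) (z : Fin m → ℂ),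
      A * G' (Fin.cons (q ^ 2 * w) (Fin.cons w z : Fin (m + 1) → ℂ)) *
        VV (m + 2) (Fin.cons (q ^ 2 * w) (Fin.cons w z : Fin (m + 1) → ℂ)) =
      B * QQ q ω (m + 2) (Fin.cons (q ^ 2 * w) (Fin.cons w z : Fin (m + 1) → ℂ)))
    (z : Fin m → ℂ) (hz : ∀ i, z i ≠ 0) (hz' : ∀ i j, i ≠ j → z i ^ 3 ≠ z j ^ 3)
    (p : ℂ[X][X]) (hp1 : p.natDegree ≤ 2 * (m + 1))
    (hp2 : (p.coeff (2 * (m + 1))).natDegree ≤ 2 * m)
    (hp3 : A * (p.coeff (2 * (m + 1))).coeff (2 * m) * VV m z
      = B * (1 + ω) ^ 2 * QQ q ω m z)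
    (hp4 : ∀ x y, (p.eval (C x)).eval y
      = G' (Fin.cons x (Fin.cons y z : Fin (m + 1) → ℂ)))
    (x y : ℂ) :
    A * G' (Fin.cons x (Fin.cons y z : Fin (m + 1) → ℂ)) *
        VV (m + 2) (Fin.cons x (Fin.cons y z : Fin (m + 1) → ℂ)) =
      B * QQ q ω (m + 2) (Fin.cons x (Fin.cons y z : Fin (m + 1) → ℂ)) := by
  have q3' := q3 hq
  set F : (Fin (m + 2) → ℂ) → ℂ := fun Z => A * G' Z * VV (m + 2) Z - B * QQ q ω (m + 2) Z
    with hF
  have hanti : ∀ Z (σ : Equiv.Perm (Fin (m + 2))),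
      F (Z ∘ σ) = (Equiv.Perm.sign σ : ℤ) * F Z := by
    intro Z σ
    simp only [hF]
    rw [hsym, VV_perm, QQ_perm]
    ring
  have hw : ∀ (w : ℂ) (z : Fin m → ℂ),
      F (Fin.cons (q ^ 2 * w) (Fin.cons w z : Fin (m + 1) → ℂ)) = 0 := by
    intro w z
    simp only [hF]
    rw [hwheel, sub_self]
  have hzero := anti_zero q hq F hanti hw
  -- the bivariate polynomial
  set V2 : ℂ[X][X] := VV (m + 2) (ZZ z) with hV2
  set Q2 : ℂ[X][X] := QQ (C (C q)) (C (C ω)) (m + 2) (ZZ z) with hQ2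
  set E2 : ℂ[X][X] := C (C A) * p * V2 - C (C B) * Q2 with hE2
  have hV2d : V2.natDegree ≤ m + 1 := natDegree_VV_le (wz z)
  have hQ2d : Q2.natDegree ≤ 3 * (m + 1) := natDegree_QQ_le (C q) (C ω) (wz z)
  have hCA : (C (C A) * p).natDegree ≤ 2 * (m + 1) := (natDegree_C_mul_le _ _).trans hp1
  have hE2d : E2.natDegree ≤ 3 * (m + 1) := by
    refine (natDegree_sub_le _ _).trans (max_le ?_ ?_)
    · refine natDegree_mul_le.trans ?_
      omega
    · exact (natDegree_C_mul_le _ _).trans hQ2d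
  have hev : ∀ a b, ev2 a b E2 = F (Fin.cons a (Fin.cons b z : Fin (m + 1) → ℂ)) := by
    intro a b
    rw [hE2, map_sub, map_mul, map_mul, map_mul, hV2, hQ2, VV_map, QQ_map]
    have e1 : (fun i => ev2 a b (ZZ z i))
        = (Fin.cons a (Fin.cons b z : Fin (m + 1) → ℂ) : Fin (m + 2) → ℂ) := by
      funext i; exact ev_ZZ z a b i
    have e2 : ∀ c : ℂ, ev2 a b (C (C c)) = c := by intro c; simp [ev2_apply]
    rw [e1, e2, e2, e2, e2, ev2_apply, hp4]
  set l : ℂ[X] := E2.coeff (3 * (m + 1)) with hl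
  -- Step A
  have hA : ∀ b : ℂ, b ≠ 0 → (∀ j, b ^ 3 ≠ z j ^ 3) → ∀ a,
      ev2 a b E2 = l.eval b * ((a ^ 3 - b ^ 3) * ∏ j, (a ^ 3 - z j ^ 3)) := by
    intro b hb hbz a
    set Zb : Fin (m + 1) → ℂ := Fin.cons b z with hZb
    have h0 : ∀ i, Zb i ≠ 0 := by
      intro i; refine Fin.cases ?_ (fun i => ?_) i
      · simpa [hZb] using hb
      · simpa [hZb] using hz i
    have h1 : ∀ i j, i ≠ j → Zb i ^ 3 ≠ Zb j ^ 3 := by
      intro i j
      refine Fin.cases ?_ (fun i => ?_) i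
      · refine Fin.cases ?_ (fun j => ?_) j
        · intro h; exact absurd rfl h
        · intro _; simpa [hZb] using hbz j
      · refine Fin.cases ?_ (fun j => ?_) j
        · intro _; simpa [hZb] using (hbz i).symm
        · intro h; simpa [hZb] using hz' i j (fun h' => h (by rw [h']))
    set P := E2.map (evalRingHom b) with hP
    have hPd : P.natDegree ≤ 3 * (m + 1) := natDegree_map_le.trans hE2d
    have hroot : ∀ (i : Fin (m + 1)) (ζ : ℂ), (ζ = 1 ∨ ζ = q ∨ ζ = q ^ 2) →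
        P.eval (ζ * Zb i) = 0 := by
      intro i ζ hζ
      rw [hP, ← ev2_eq_map, hev]
      refine hzero _ 0 i.succ (by exact (Fin.succ_ne_zero i).symm) ?_
      simp only [Fin.cons_zero, Fin.cons_succ]
      rcases hζ with h | h | h
      · left; rw [h, one_mul]
      · right; left; rw [h]
      · right; right; rw [h]
    have := root_factor hq Zb h0 h1 P hPd
      (fun i => by simpa using hroot i 1 (Or.inl rfl))
      (fun i => hroot i q (Or.inr (Or.inl rfl)))
      (fun i => hroot i (q ^ 2) (Or.inr (Or.inr rfl)))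
    rw [ev2_eq_map, ← hP, this, eval_mul, eval_C, hP, coeff_map]
    rw [eval_prod, Fin.prod_univ_succ]
    simp [hZb, hl]
  -- generic values are cofinite
  have hinf : ∀ (T : Finset ℂ), ∃ b : ℂ, b ∉ T := fun T => Infinite.exists_notMem_finset T
  set bad : Set ℂ := {b | b = 0} ∪ ⋃ j, {b | b ^ 3 = z j ^ 3} with hbad
  have hbadfin : bad.Finite := by
    refine Set.Finite.union (by simp) (Set.finite_iUnion (fun j => ?_))
    have : {b : ℂ | b ^ 3 = z j ^ 3} ⊆ ↑((X ^ 3 - C (z j ^ 3) : ℂ[X]).roots.toFinset) := by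
      intro b hb
      have hne : (X ^ 3 - C (z j ^ 3) : ℂ[X]) ≠ 0 :=
        (monic_X_pow_sub_C _ (by norm_num)).ne_zero
      have hb' : b ^ 3 = z j ^ 3 := hb
      simp only [Finset.mem_coe, Multiset.mem_toFinset]
      rw [mem_roots hne, IsRoot, eval_sub, eval_pow, eval_X, eval_C, hb', sub_self]
    exact (Finset.finite_toSet _).subset this
  -- Step B
  have hB : ∀ a : ℂ, E2.eval (C a)
      = l * ((C (a ^ 3) - X ^ 3) * C (∏ j, (a ^ 3 - z j ^ 3))) := by
    intro a
    apply eq_of_infinite_eval_eq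
    refine Set.Infinite.mono ?_ (hbadfin.infinite_compl)
    intro b hb
    have hb1 : b ≠ 0 := fun h => hb (Or.inl h)
    have hb2 : ∀ j, b ^ 3 ≠ z j ^ 3 := fun j h => hb (Or.inr (Set.mem_iUnion.mpr ⟨j, h⟩))
    have := hA b hb1 hb2 a
    rw [ev2_apply] at this
    change eval b (eval (C a) E2) = _
    rw [this, eval_mul, eval_mul, eval_C, eval_sub, eval_C, eval_pow, eval_X]
  -- degree in the inner variable
  have hBd : ∀ a : ℂ, (E2.eval (C a)).natDegree ≤ 3 * (m + 1) := by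
    intro a
    have : E2.eval (C a) = - E2.map (evalRingHom a) := by
      apply Polynomial.funext
      intro b
      rw [eval_neg, ← ev2_eq_map, ← ev2_apply, hev, hev]
      have := hanti (Fin.cons b (Fin.cons a z : Fin (m + 1) → ℂ)) (Equiv.swap 0 1)
      rw [Equiv.Perm.sign_swap (by simp)] at this
      have h2 : (Fin.cons b (Fin.cons a z : Fin (m + 1) → ℂ) : Fin (m + 2) → ℂ) ∘
          (Equiv.swap 0 1) = (Fin.cons a (Fin.cons b z : Fin (m + 1) → ℂ)) := by
        funext i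
        refine Fin.cases ?_ (fun i => ?_) i
        · simp only [Function.comp_apply, Equiv.swap_apply_left, Fin.cons_zero]
          rfl
        · refine Fin.cases ?_ (fun i => ?_) i
          · have : (Fin.succ 0 : Fin (m + 2)) = 1 := rfl
            simp only [Function.comp_apply, this, Equiv.swap_apply_right, Fin.cons_zero]
            rfl
          · have h3 : (Equiv.swap (0 : Fin (m + 2)) 1) i.succ.succ = i.succ.succ := by
              apply Equiv.swap_apply_of_ne_of_ne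
              · exact Fin.succ_ne_zero _
              · intro h
                have : (1 : Fin (m + 2)) = Fin.succ 0 := rfl
                rw [this] at h
                exact Fin.succ_ne_zero _ (Fin.succ_injective _ h)
            simp [Function.comp_apply, h3]
      rw [h2] at this
      rw [this]; simp
    rw [this, natDegree_neg]
    exact natDegree_map_le.trans hE2d
  -- choose a generic a
  obtain ⟨a0, ha0⟩ : ∃ a0 : ℂ, a0 ∉ bad := by
    obtain ⟨a0, h⟩ := hbadfin.infinite_compl.nonempty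
    exact ⟨a0, h⟩
  have ha1 : ∀ j, a0 ^ 3 - z j ^ 3 ≠ 0 :=
    fun j h => ha0 (Or.inr (Set.mem_iUnion.mpr ⟨j, sub_eq_zero.mp h⟩))
  have hc : (∏ j, (a0 ^ 3 - z j ^ 3)) ≠ 0 := Finset.prod_ne_zero_iff.mpr (fun j _ => ha1 j)
  have hld : l.natDegree ≤ 3 * m := by
    by_cases hl0 : l = 0
    · rw [hl0]; simp
    have h1 := hBd a0
    rw [hB a0] at h1
    have hX : (C (a0 ^ 3) - X ^ 3 : ℂ[X]).natDegree = 3 := by
      have : (C (a0 ^ 3) - X ^ 3 : ℂ[X]) = -(X ^ 3 - C (a0 ^ 3)) := by ring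
      rw [this, natDegree_neg, natDegree_X_pow_sub_C]
    have hXne : (C (a0 ^ 3) - X ^ 3 : ℂ[X]) ≠ 0 := by
      intro h; rw [h] at hX; simp at hX
    rw [natDegree_mul hl0 (mul_ne_zero hXne (C_ne_zero.mpr hc)),
      natDegree_mul hXne (C_ne_zero.mpr hc), hX, natDegree_C] at h1
    omega
  have hlroot : ∀ (i : Fin m) (ζ : ℂ), (ζ = 1 ∨ ζ = q ∨ ζ = q ^ 2) →
      l.eval (ζ * z i) = 0 := by
    intro i ζ hζ
    have h1 : ev2 a0 (ζ * z i) E2 = 0 := by
      rw [hev]
      refine hzero _ 1 i.succ.succ ?_ ?_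
      · intro h
        have : (1 : Fin (m + 2)) = Fin.succ 0 := rfl
        rw [this] at h
        exact Fin.succ_ne_zero _ (Fin.succ_injective _ h).symm
      · have : (1 : Fin (m + 2)) = Fin.succ 0 := rfl
        rw [this]
        simp only [Fin.cons_zero, Fin.cons_succ]
        rcases hζ with h | h | h
        · left; rw [h, one_mul]
        · right; left; rw [h]
        · right; right; rw [h]
    rw [ev2_apply, hB a0, eval_mul, eval_mul, eval_C, eval_sub, eval_C, eval_pow, eval_X] at h1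
    have hζ3 : (ζ * z i) ^ 3 = z i ^ 3 := by
      rcases hζ with h | h | h
      · rw [h]; ring
      · rw [h, mul_pow, q3']; ring
      · rw [h, mul_pow, ← pow_mul, mul_comm 2 3, pow_mul, q3']; ring
    rw [hζ3] at h1
    rcases mul_eq_zero.mp h1 with h | h
    · exact h
    · exact absurd h (mul_ne_zero (ha1 i) hc)
  have hlf := root_factor hq z hz hz' l hld
      (fun i => by simpa using hlroot i 1 (Or.inl rfl))
      (fun i => hlroot i q (Or.inr (Or.inl rfl)))
      (fun i => hlroot i (q ^ 2) (Or.inr (Or.inr rfl)))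
  -- the leading coefficient
  have hl1 : l = (-1) ^ (m + 1) * (C A * p.coeff (2 * (m + 1)) * VV (m + 1) (wz z)
      - C B * (1 + C ω) * QQ (C q) (C ω) (m + 1) (wz z)) := by
    rw [hl, hE2, coeff_sub]
    have e1 : (C (C A) * p * V2).coeff (3 * (m + 1))
        = (C (C A) * p).coeff (2 * (m + 1)) * V2.coeff (m + 1) := by
      have : 3 * (m + 1) = 2 * (m + 1) + (m + 1) := by ring
      rw [this]
      exact coeff_mul_add_eq_of_natDegree_le hCA hV2d
    have e2 : V2.coeff (m + 1) = (-1) ^ (m + 1) * VV (m + 1) (wz z) := coeff_VV (wz z)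
    have e3 : Q2.coeff (3 * (m + 1))
        = (-1) ^ (m + 1) * (1 + C ω) * QQ (C q) (C ω) (m + 1) (wz z) := by
      have hq3 : (C q : ℂ[X]) ^ 3 = 1 := by rw [← C_pow, q3', C_1]
      exact coeff_QQ (C q) (C ω) hq3 (wz z)
    rw [e1, e2, coeff_C_mul, coeff_C_mul, e3]
    ring
  have hl2 : l.coeff (3 * m) = 0 := by
    have f1 : (p.coeff (2 * (m + 1)) * VV (m + 1) (wz z)).coeff (3 * m)
        = (p.coeff (2 * (m + 1))).coeff (2 * m) * ((-1) ^ m * VV m z) := by
      have : 3 * m = 2 * m + m := by ring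
      have h5 : (VV (m + 1) (wz z)).natDegree ≤ m := natDegree_VV_le z
      have h6 : (VV (m + 1) (wz z)).coeff m = (-1) ^ m * VV m z := coeff_VV z
      rw [this, coeff_mul_add_eq_of_natDegree_le hp2 h5, h6]
    have f2 : (QQ (C q) (C ω) (m + 1) (wz z)).coeff (3 * m)
        = (-1) ^ m * (1 + ω) * QQ q ω m z := coeff_QQ q ω q3' z
    have f3 : (C A * p.coeff (2 * (m + 1)) * VV (m + 1) (wz z)
      - C B * (1 + C ω) * QQ (C q) (C ω) (m + 1) (wz z)).coeff (3 * m) = 0 := by
      have : C B * (1 + C ω) * QQ (C q) (C ω) (m + 1) (wz z)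
          = C (B * (1 + ω)) * QQ (C q) (C ω) (m + 1) (wz z) := by
        rw [C_mul, C_add, C_1]
      rw [this, mul_assoc (C A), coeff_sub, coeff_C_mul, coeff_C_mul, f1, f2]
      linear_combination (-1) ^ m * hp3
    rw [hl1]
    rcases Nat.even_or_odd (m + 1) with he | ho
    · rw [he.neg_one_pow, one_mul]; exact f3
    · rw [ho.neg_one_pow, neg_one_mul, coeff_neg, f3, neg_zero]
  have hl3 : l = 0 := by rw [hlf, hl2]; simp
  have hfin : ev2 x y E2 = 0 := by
    rw [ev2_apply, hB x, hl3]; simp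
  rw [hev] at hfin
  simp only [hF] at hfin
  exact sub_eq_zero.mp hfin

end

end EX93
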