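import Pool.Agent.H93.EX.Deg

namespace EX93

open Finset Polynomial

section
variable {q : ℂ}

lemma q3 (hq : q ^ 2 + q + 1 = 0) : q ^ 3 = 1 := by linear_combination (q - 1) * hq

lemma q_ne_zero (hq : q ^ 2 + q + 1 = 0) : q ≠ 0 := by
  rintro rfl; norm_num at hq

lemma q_ne_one (hq : q ^ 2 + q + 1 = 0) : q ≠ 1 := by
  rintro rfl; norm_num at hq

lemma q2_ne_one (hq : q ^ 2 + q + 1 = 0) : q ^ 2 ≠ 1 := by
  intro h
  have h2 : q = -2 := by linear_combination hq - h
  rw [h2] at hq; norm_num at hq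

lemma cube_factor (hq : q ^ 2 + q + 1 = 0) (a : ℂ) :
    (X ^ 3 - C (a ^ 3) : ℂ[X]) = (X - C a) * ((X - C (q * a)) * (X - C (q ^ 2 * a))) := by
  have h1 : (C q : ℂ[X]) ^ 2 + C q + 1 = 0 := by
    rw [← C_pow, ← C_add, ← C_1, ← C_add, hq, C_0]
  have h3 : (C q : ℂ[X]) ^ 3 = 1 := by linear_combination (C q - 1) * h1
  simp only [map_pow, map_mul]
  linear_combination (X - C a) * X * C a * h1 - (X - C a) * C a ^ 2 * h3

/-- factorisation of a polynomial vanishing at all cube-root multiples of given points -/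
lemma root_factor (hq : q ^ 2 + q + 1 = 0) {N : ℕ} (a : Fin N → ℂ) (ha : ∀ i, a i ≠ 0)
    (hd : ∀ i j, i ≠ j → a i ^ 3 ≠ a j ^ 3) (P : ℂ[X]) (hP : P.natDegree ≤ 3 * N)
    (h0 : ∀ i, P.eval (a i) = 0) (h1 : ∀ i, P.eval (q * a i) = 0)
    (h2 : ∀ i, P.eval (q ^ 2 * a i) = 0) :
    P = C (P.coeff (3 * N)) * ∏ i, (X ^ 3 - C (a i ^ 3)) := by
  have q3' := q3 hq
  -- each factor divides P
  have hdiv : ∀ i, (X ^ 3 - C (a i ^ 3) : ℂ[X]) ∣ P := by
    intro i
    rw [cube_factor hq]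
    have n1 : a i ≠ q * a i := by
      intro h
      apply q_ne_one hq
      have := mul_right_cancel₀ (ha i) (by rw [one_mul]; exact h : (1 : ℂ) * a i = q * a i)
      exact this.symm
    have n2 : a i ≠ q ^ 2 * a i := by
      intro h
      apply q2_ne_one hq
      have := mul_right_cancel₀ (ha i) (by rw [one_mul]; exact h : (1 : ℂ) * a i = q ^ 2 * a i)
      exact this.symm
    have n3 : q * a i ≠ q ^ 2 * a i := by
      intro h
      have := mul_right_cancel₀ (ha i) h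
      apply q_ne_one hq
      have h' : q * (q - 1) = 0 := by linear_combination -this
      rcases mul_eq_zero.mp h' with h'' | h''
      · exact absurd h'' (q_ne_zero hq)
      · linear_combination h''
    have c23 : IsCoprime (X - C (q * a i) : ℂ[X]) (X - C (q ^ 2 * a i)) :=
      isCoprime_X_sub_C_of_isUnit_sub (sub_ne_zero.mpr n3).isUnit
    have c12 : IsCoprime (X - C (a i) : ℂ[X]) (X - C (q * a i)) :=
      isCoprime_X_sub_C_of_isUnit_sub (sub_ne_zero.mpr n1).isUnit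
    have c13 : IsCoprime (X - C (a i) : ℂ[X]) (X - C (q ^ 2 * a i)) :=
      isCoprime_X_sub_C_of_isUnit_sub (sub_ne_zero.mpr n2).isUnit
    refine IsCoprime.mul_dvd (c12.mul_right c13) (dvd_iff_isRoot.mpr (h0 i)) ?_
    exact IsCoprime.mul_dvd c23 (dvd_iff_isRoot.mpr (h1 i)) (dvd_iff_isRoot.mpr (h2 i))
  have hcop : Pairwise (Function.onFun IsCoprime fun i => (X ^ 3 - C (a i ^ 3) : ℂ[X])) := by
    intro i j hij
    simp only [Function.onFun]
    have hne : a i ^ 3 - a j ^ 3 ≠ 0 := sub_ne_zero.mpr (hd i j hij)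
    refine ⟨-C ((a i ^ 3 - a j ^ 3)⁻¹), C ((a i ^ 3 - a j ^ 3)⁻¹), ?_⟩
    have : -C ((a i ^ 3 - a j ^ 3)⁻¹) * (X ^ 3 - C (a i ^ 3)) +
        C ((a i ^ 3 - a j ^ 3)⁻¹) * (X ^ 3 - C (a j ^ 3))
        = C ((a i ^ 3 - a j ^ 3)⁻¹ * (a i ^ 3 - a j ^ 3)) := by
      rw [C_mul, C_sub]; ring
    rw [this, inv_mul_cancel₀ hne, C_1]
  obtain ⟨r, hr⟩ := Fintype.prod_dvd_of_coprime hcop hdiv
  have hmon : (∏ i, (X ^ 3 - C (a i ^ 3) : ℂ[X])).Monic :=
    monic_prod_of_monic _ _ (fun i _ => monic_X_pow_sub_C _ (by norm_num))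
  have hdeg : (∏ i, (X ^ 3 - C (a i ^ 3) : ℂ[X])).natDegree = 3 * N := by
    rw [natDegree_prod_of_monic _ _ (fun i _ => monic_X_pow_sub_C _ (by norm_num))]
    simp only [natDegree_X_pow_sub_C]
    simp [mul_comm]
  have hr0 : r.natDegree = 0 := by
    by_cases hr' : r = 0
    · rw [hr']; simp
    have h := hmon.natDegree_mul' hr'
    rw [← hr, hdeg] at h
    omega
  obtain ⟨c, rfl⟩ : ∃ c, r = C c := ⟨r.coeff 0, eq_C_of_natDegree_eq_zero hr0⟩
  have hc : P.coeff (3 * N) = c := by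
    rw [hr, coeff_mul_C, ← hdeg]
    rw [hmon.coeff_natDegree, one_mul]
  rw [hc, mul_comm]
  exact hr

end

section
variable {m : ℕ}

/-- a permutation sending `0, 1` to `i, j` -/
lemma exists_perm (i j : Fin (m + 2)) (h : i ≠ j) :
    ∃ σ : Equiv.Perm (Fin (m + 2)), σ 0 = i ∧ σ 1 = j := by
  refine ⟨Equiv.swap 0 i * Equiv.swap 1 (Equiv.swap 0 i j), ?_, ?_⟩
  · have h1 : Equiv.swap 1 (Equiv.swap 0 i j) 0 = 0 := by
      apply Equiv.swap_apply_of_ne_of_ne
      · simp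
      · intro h'
        apply h
        have := congrArg (Equiv.swap 0 i) h'
        rw [Equiv.swap_apply_self, Equiv.swap_apply_left] at this
        exact this
    rw [Equiv.Perm.mul_apply, h1, Equiv.swap_apply_left]
  · rw [Equiv.Perm.mul_apply, Equiv.swap_apply_left, Equiv.swap_apply_self]

lemma cons_cons_of (Z : Fin (m + 2) → ℂ) :
    Z = (Fin.cons (Z 0) (Fin.cons (Z 1) (fun j : Fin m => Z j.succ.succ) : Fin (m + 1) → ℂ)
      : Fin (m + 2) → ℂ) := by
  funext i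
  refine Fin.cases ?_ (fun i => ?_) i
  · simp
  · refine Fin.cases ?_ (fun i => ?_) i
    · simp
    · simp

/-- An antisymmetric function vanishing on the wheel locus vanishes on all its images. -/
lemma anti_zero (q : ℂ) (hq : q ^ 2 + q + 1 = 0) (F : (Fin (m + 2) → ℂ) → ℂ)
    (hanti : ∀ Z (σ : Equiv.Perm (Fin (m + 2))), F (Z ∘ σ) = (Equiv.Perm.sign σ : ℤ) * F Z)
    (hwheel : ∀ (w : ℂ) (z : Fin m → ℂ),
      F (Fin.cons (q ^ 2 * w) (Fin.cons w z : Fin (m + 1) → ℂ)) = 0)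
    (Z : Fin (m + 2) → ℂ) (i j : Fin (m + 2)) (hij : i ≠ j)
    (h : Z i = Z j ∨ Z i = q * Z j ∨ Z i = q ^ 2 * Z j) : F Z = 0 := by
  have key : ∀ i j : Fin (m + 2), i ≠ j → Z i = q ^ 2 * Z j → F Z = 0 := by
    intro i j hij h
    obtain ⟨σ, h0, h1⟩ := exists_perm i j hij
    have h2 := hanti Z σ
    have h3 : F (Z ∘ σ) = 0 := by
      rw [cons_cons_of (Z ∘ σ)]
      have e0 : (Z ∘ σ) 0 = q ^ 2 * (Z ∘ σ) 1 := by
        simp only [Function.comp_apply, h0, h1, h]
      rw [e0]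
      exact hwheel _ _
    rw [h3] at h2
    rcases Int.units_eq_one_or (Equiv.Perm.sign σ) with hs | hs
    · rw [hs] at h2; simpa using h2.symm
    · rw [hs] at h2; simpa using h2.symm
  rcases h with h | h | h
  · have h2 := hanti Z (Equiv.swap i j)
    have h3 : Z ∘ (Equiv.swap i j) = Z := by
      funext k
      simp only [Function.comp_apply]
      by_cases hk : k = i
      · subst hk; rw [Equiv.swap_apply_left, h]
      by_cases hk' : k = j
      · subst hk'; rw [Equiv.swap_apply_right, h]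
      rw [Equiv.swap_apply_of_ne_of_ne hk hk']
    rw [h3, Equiv.Perm.sign_swap hij] at h2
    have : F Z = - F Z := by simpa using h2
    linear_combination (1 / 2 : ℂ) * this
  · apply key j i hij.symm
    rw [h]; linear_combination (-(Z j)) * q3 hq
  · exact key i j hij h

end

end EX93
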